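import Mathlib

set_option autoImplicit false

namespace Pool.Agent.Helper75.PM

/-- The subgroup generated by the `p`-elements. -/
def Kp (p : ℕ) (G : Type) [Group G] : Subgroup G :=
  Subgroup.closure {g : G | ∃ k : ℕ, g ^ (p ^ k) = 1}

/-- The `p`-minimal condition. -/
def PMin (p : ℕ) (G : Type) [Group G] : Prop :=
  ¬ ∃ H : ℕ → Subgroup G, ∀ i : ℕ, H (i + 1) < H i ∧
        ∃ g ∈ H i, g ∉ H (i + 1) ∧ ∃ k : ℕ, g ^ (p ^ k) = 1

/-- Locally finite groups. -/
def LF (G : Type) [Group G] : Prop :=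
  ∀ s : Set G, s.Finite → (Subgroup.closure s : Set G).Finite

/-- The subgroup generated by the elements `n x n⁻¹ x⁻¹`, `n` in `N`. -/
def cm {G : Type} [Group G] (N : Subgroup G) (x : G) : Subgroup G :=
  Subgroup.closure {g | ∃ n ∈ N, g = n * x * n⁻¹ * x⁻¹}

end Pool.Agent.Helper75.PM
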