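import Pool.Agent.Helper75.PM.Defs

set_option autoImplicit false

namespace Pool.Agent.Helper75.PM



theorem chain (p : ℕ) (hp : p.Prime) {G : Type} [Group G] (hlf : LF G) (hm : PMin p G)
    (N : Subgroup G) [N.Normal] (hab : ∀ a ∈ N, ∀ b ∈ N, a * b = b * a)
    (hN : ∀ a ∈ N, ∀ k : ℕ, a ^ (p ^ k) = 1 → a = 1) (x : G) (hx : ∃ k : ℕ, x ^ (p ^ k) = 1)
    (T : ℕ → Subgroup G) (hT : ∀ i, T i ≤ cm N x) (hTx : ∀ i, ∀ t ∈ T i, x * t * x⁻¹ ∈ T i)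
    (hdesc : ∀ i, T (i + 1) < T i) : False := by
  obtain ⟨k, hk⟩ := hx
  have hq : 1 ≤ p ^ k := Nat.one_le_pow _ _ hp.pos
  have hxN : ∀ n ∈ N, x * n * x⁻¹ ∈ N := fun n hn => ‹N.Normal›.conj_mem n hn x
  have hcm : ∀ a ∈ cm N x, ∃ n ∈ N, a = n * x * n⁻¹ * x⁻¹ := by
    intro a ha
    unfold cm at ha
    induction ha using Subgroup.closure_induction with
    | mem a h => exact h
    | one => exact ⟨1, N.one_mem, by simp⟩
    | mul a b _ _ iha ihb =>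
      obtain ⟨n, hn, rfl⟩ := iha
      obtain ⟨m, hm', rfl⟩ := ihb
      refine ⟨n * m, N.mul_mem hn hm', ?_⟩
      have h1 : (x * n⁻¹ * x⁻¹) * m = m * (x * n⁻¹ * x⁻¹) :=
        hab _ (hxN _ (N.inv_mem hn)) _ hm'
      have h2 : n⁻¹ * m⁻¹ = m⁻¹ * n⁻¹ := hab _ (N.inv_mem hn) _ (N.inv_mem hm')
      calc n * x * n⁻¹ * x⁻¹ * (m * x * m⁻¹ * x⁻¹)
          = n * ((x * n⁻¹ * x⁻¹) * m) * (x * m⁻¹ * x⁻¹) := by group
        _ = n * (m * (x * n⁻¹ * x⁻¹)) * (x * m⁻¹ * x⁻¹) := by rw [h1]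
        _ = n * m * x * (n⁻¹ * m⁻¹) * x⁻¹ := by group
        _ = n * m * x * (m⁻¹ * n⁻¹) * x⁻¹ := by rw [h2]
        _ = n * m * x * (n * m)⁻¹ * x⁻¹ := by group
    | inv a _ iha =>
      obtain ⟨n, hn, rfl⟩ := iha
      refine ⟨n⁻¹, N.inv_mem hn, ?_⟩
      have h1 : (x * n * x⁻¹) * n⁻¹ = n⁻¹ * (x * n * x⁻¹) := hab _ (hxN _ hn) _ (N.inv_mem hn)
      calc (n * x * n⁻¹ * x⁻¹)⁻¹ = (x * n * x⁻¹) * n⁻¹ := by group
        _ = n⁻¹ * (x * n * x⁻¹) := h1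
        _ = n⁻¹ * x * n⁻¹⁻¹ * x⁻¹ := by group
  have hcmN : cm N x ≤ N := by
    intro a ha
    obtain ⟨n, hn, rfl⟩ := hcm a ha
    have : n * x * n⁻¹ * x⁻¹ = n * (x * n⁻¹ * x⁻¹) := by group
    rw [this]
    exact N.mul_mem hn (hxN _ (N.inv_mem hn))
  have hfix : ∀ a ∈ cm N x, a * x = x * a → a = 1 := by
    intro a ha hc
    obtain ⟨n, hn, han⟩ := hcm a ha
    apply hN a (hcmN ha) k
    have h1 : n * x * n⁻¹ = a * x := by rw [han]; group
    have h2 : (n * x * n⁻¹) ^ (p ^ k) = 1 := by rw [conj_pow, hk]; group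
    rw [h1, (show Commute a x from hc).mul_pow, hk, mul_one] at h2
    exact h2
  have hconj : ∀ i, ∀ t ∈ T i, ∀ j : ℕ, x ^ j * t * (x ^ j)⁻¹ ∈ T i := by
    intro i t ht j
    induction j with
    | zero => simpa using ht
    | succ j ih =>
      have h1 := hTx i _ ih
      have h2 : x * (x ^ j * t * (x ^ j)⁻¹) * x⁻¹ = x ^ (j + 1) * t * (x ^ (j + 1))⁻¹ := by
        rw [pow_succ']; group
      rwa [h2] at h1
  have hxinv : ∀ j : ℕ, (x ^ j)⁻¹ = x ^ (j * (p ^ k - 1)) := by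
    intro j
    rw [inv_eq_iff_mul_eq_one, ← pow_add]
    have : j + j * (p ^ k - 1) = p ^ k * j := by
      obtain ⟨r, hr⟩ : ∃ r, p ^ k = r + 1 := ⟨p ^ k - 1, by omega⟩
      rw [hr, Nat.add_sub_cancel]
      ring
    rw [this, pow_mul, hk, one_pow]
  let H : ℕ → Subgroup G := fun i =>
    { carrier := {g | ∃ t ∈ T i, ∃ j : ℕ, g = t * x ^ j}
      mul_mem' := by
        rintro _ _ ⟨t, ht, j, rfl⟩ ⟨t', ht', j', rfl⟩
        refine ⟨t * (x ^ j * t' * (x ^ j)⁻¹), (T i).mul_mem ht (hconj i t' ht' j), j + j', ?_⟩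
        rw [pow_add]; group
      one_mem' := ⟨1, (T i).one_mem, 0, by simp⟩
      inv_mem' := by
        rintro _ ⟨t, ht, j, rfl⟩
        refine ⟨x ^ (j * (p ^ k - 1)) * t⁻¹ * (x ^ (j * (p ^ k - 1)))⁻¹,
          hconj i _ ((T i).inv_mem ht) _, j * (p ^ k - 1), ?_⟩
        rw [mul_inv_rev, hxinv j]
        group }
  apply hm
  refine ⟨H, fun i => ?_⟩
  have hle : H (i + 1) ≤ H i := by
    rintro _ ⟨t, ht, j, rfl⟩
    exact ⟨t, (hdesc i).le ht, j, rfl⟩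
  obtain ⟨s, hs, hs'⟩ := SetLike.exists_of_lt (hdesc i)
  have hfin : ((Subgroup.closure ({x, s} : Set G) : Subgroup G) : Set G).Finite :=
    hlf _ (Set.toFinite _)
  obtain ⟨F, hF⟩ : ∃ F : Subgroup G, F = T i ⊓ Subgroup.closure ({x, s} : Set G) := ⟨_, rfl⟩
  have hFfin : Finite F := by
    apply Set.Finite.to_subtype
    rw [hF]
    exact hfin.subset (fun a ha => ha.2)
  have hxcl : x ∈ Subgroup.closure ({x, s} : Set G) := Subgroup.subset_closure (by simp)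
  have hscl : s ∈ Subgroup.closure ({x, s} : Set G) := Subgroup.subset_closure (by simp)
  have hFx : ∀ m ∈ F, m * x * m⁻¹ * x⁻¹ ∈ F := by
    intro m hmF
    rw [hF] at hmF ⊢
    have e : m * x * m⁻¹ * x⁻¹ = m * (x * m⁻¹ * x⁻¹) := by group
    refine ⟨?_, ?_⟩
    · show _ ∈ T i
      rw [e]
      exact (T i).mul_mem hmF.1 (hTx i _ ((T i).inv_mem hmF.1))
    · show _ ∈ Subgroup.closure ({x, s} : Set G)
      rw [e]
      exact Subgroup.mul_mem _ hmF.2 (Subgroup.mul_mem _ (Subgroup.mul_mem _ hxcl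
        (Subgroup.inv_mem _ hmF.2)) (Subgroup.inv_mem _ hxcl))
  have hinj : Function.Injective (fun m : F => (⟨(m : G) * x * (m : G)⁻¹ * x⁻¹, hFx m m.2⟩ : F)) := by
    intro m m' h
    have h1 : (m : G) * x * (m : G)⁻¹ * x⁻¹ = (m' : G) * x * (m' : G)⁻¹ * x⁻¹ :=
      congrArg Subtype.val h
    have h2 : (m : G) * x * (m : G)⁻¹ = (m' : G) * x * (m' : G)⁻¹ := mul_right_cancel h1
    have h3 : ((m' : G)⁻¹ * m) * x = x * ((m' : G)⁻¹ * m) := by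
      have : (m' : G)⁻¹ * ((m : G) * x * (m : G)⁻¹) * m = (m' : G)⁻¹ * ((m' : G) * x * (m' : G)⁻¹) * m := by
        rw [h2]
      calc ((m' : G)⁻¹ * m) * x = (m' : G)⁻¹ * ((m : G) * x * (m : G)⁻¹) * m := by group
        _ = (m' : G)⁻¹ * ((m' : G) * x * (m' : G)⁻¹) * m := this
        _ = x * ((m' : G)⁻¹ * m) := by group
    have hFT : F ≤ T i := by rw [hF]; exact inf_le_left
    have hmT : (m : G) ∈ T i := hFT m.2
    have hmT' : (m' : G) ∈ T i := hFT m'.2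
    have h4 := hfix _ (hT i ((T i).mul_mem ((T i).inv_mem hmT') hmT)) h3
    apply Subtype.ext
    rw [inv_mul_eq_one] at h4
    exact h4.symm
  have hsurj := Finite.surjective_of_injective hinj
  have hsF : s ∈ F := by rw [hF]; exact ⟨hs, hscl⟩
  obtain ⟨m, hms⟩ := hsurj ⟨s, hsF⟩
  have hms' : (m : G) * x * (m : G)⁻¹ * x⁻¹ = s := congrArg Subtype.val hms
  have hg : s * x = (m : G) * x * (m : G)⁻¹ := by rw [← hms']; group
  have hgH : s * x ∈ H i := ⟨s, hs, 1, by rw [pow_one]⟩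
  have hgH' : s * x ∉ H (i + 1) := by
    rintro ⟨t, ht, j, htj⟩
    have h1 : t⁻¹ * s = x ^ j * x⁻¹ := by
      calc t⁻¹ * s = t⁻¹ * (s * x) * x⁻¹ := by group
        _ = t⁻¹ * (t * x ^ j) * x⁻¹ := by rw [htj]
        _ = x ^ j * x⁻¹ := by group
    have h2 : t⁻¹ * s ∈ N := by
      apply hcmN
      apply hT i
      exact (T i).mul_mem ((T i).inv_mem ((hdesc i).le ht)) hs
    have h3 : (t⁻¹ * s) ^ (p ^ k) = 1 := by
      rw [h1]
      have hc : Commute (x ^ j) x⁻¹ := (Commute.refl x).inv_right.pow_left j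
      rw [hc.mul_pow, ← pow_mul, mul_comm j, pow_mul, hk, one_pow, inv_pow, hk]
      simp
    have h4 := hN _ h2 k h3
    rw [inv_mul_eq_one] at h4
    exact hs' (h4 ▸ ht)
  refine ⟨?_, s * x, hgH, hgH', k, ?_⟩
  · rw [lt_iff_le_and_ne]
    refine ⟨hle, fun heq => hgH' ?_⟩
    rw [heq]; exact hgH
  · rw [hg, conj_pow, hk]; group

end Pool.Agent.Helper75.PM
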