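import Pool.Agent.Helper75.PM.Defs

set_option autoImplicit false

namespace Pool.Agent.Helper75.PM


theorem dpaux_fin {T : Type} [CommGroup T]
    (hs : {a : T | ∃ q : ℕ, q.Prime ∧ a ^ q = 1}.Finite) :
    ∀ n : ℕ, 0 < n → {a : T | a ^ n = 1}.Finite := by
  intro n
  induction n using Nat.strong_induction_on with
  | _ n ih =>
    intro hn
    rcases Nat.lt_or_ge 1 n with h1 | h1
    · obtain ⟨m, hm⟩ := Nat.minFac_dvd n
      have hq : (Nat.minFac n).Prime := Nat.minFac_prime (by omega)
      set q := Nat.minFac n with hqd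
      have hm0 : 0 < m := by
        rcases Nat.eq_zero_or_pos m with h | h
        · rw [h] at hm; omega
        · exact h
      have hmn : m < n := by
        have := hq.two_le
        nlinarith
      have h2 : {a : T | a ^ q = 1}.Finite := hs.subset fun a ha => ⟨q, hq, ha⟩
      have h3 := ih m hmn hm0
      have h4 : ((fun a : T => a ^ q) ⁻¹' {a : T | a ^ m = 1}).Finite := by
        apply Set.Finite.preimage' h3
        intro b _
        by_cases hne : ((fun a : T => a ^ q) ⁻¹' {b}).Nonempty
        · obtain ⟨a0, ha0⟩ := hne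
          apply (h2.image (fun t => a0 * t)).subset
          intro a ha
          refine ⟨a0⁻¹ * a, ?_, by simp⟩
          simp only [Set.mem_preimage, Set.mem_singleton_iff] at ha ha0
          simp only [Set.mem_setOf_eq, mul_pow, inv_pow, ha, ha0, inv_mul_cancel]
        · rw [Set.not_nonempty_iff_eq_empty.1 hne]
          exact Set.finite_empty
      apply h4.subset
      intro a ha
      simp only [Set.mem_preimage, Set.mem_setOf_eq] at ha ⊢
      rw [← pow_mul, ← hm]
      exact ha
    · have : n = 1 := by omega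
      subst this
      apply (Set.finite_singleton (1 : T)).subset
      intro a ha
      simpa using ha

theorem dpaux_index {T : Type} [CommGroup T] (ht : ∀ a : T, IsOfFinOrder a) (n : ℕ)
    (hf : {a : T | a ^ n = 1}.Finite) : ((powMonoidHom n : T →* T).range).index ≠ 0 := by
  classical
  intro h0
  set R := (powMonoidHom n : T →* T).range with hR
  have hinf : Infinite (T ⧸ R) := by
    by_contra hc
    rw [not_infinite_iff_finite] at hc
    rw [Subgroup.index] at h0
    have := Nat.card_pos (α := T ⧸ R)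
    omega
  set K := Nat.card {a : T | a ^ n = 1} with hK
  obtain ⟨s, hscard⟩ := Infinite.exists_subset_card_eq (T ⧸ R) (K + 1)
  let A : Finset T := s.image Quotient.out
  have hA : A.card = K + 1 := by
    rw [Finset.card_image_of_injective _ Quotient.out_injective, hscard]
  let F : Subgroup T := Subgroup.closure (A : Set T)
  haveI hFG : Group.FG F := Group.closure_finset_fg A
  haveI hFf : Finite F := by
    apply CommGroup.finite_of_fg_torsion
    intro x
    have := ht x.1
    exact Submonoid.isOfFinOrder_coe.1 this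
  let φ : F →* F := powMonoidHom n
  have e1 := Subgroup.card_mul_index φ.ker
  have e2 := Subgroup.index_ker φ
  have e3 := Subgroup.card_mul_index φ.range
  have hpos : 0 < Nat.card φ.range := Nat.card_pos
  have e4 : φ.range.index = Nat.card φ.ker := by
    rw [e2] at e1
    have : Nat.card φ.range * φ.range.index = Nat.card φ.range * Nat.card φ.ker := by
      rw [e3, ← e1, mul_comm]
    exact Nat.eq_of_mul_eq_mul_left hpos this
  haveI := hf.to_subtype
  have e5 : Nat.card φ.ker ≤ K := by
    apply Nat.card_le_card_of_injective (fun x : φ.ker => (⟨x.1.1, by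
      have h := x.2
      rw [MonoidHom.mem_ker] at h
      have h' := congrArg Subtype.val h
      simpa [φ] using h'⟩ : {a : T | a ^ n = 1}))
    intro x y hxy
    have : x.1.1 = y.1.1 := congrArg (fun t : {a : T | a ^ n = 1} => (t : T)) hxy
    exact Subtype.ext (Subtype.ext this)
  have e6 : A.card ≤ φ.range.index := by
    have hAF : ∀ a : A, a.1 ∈ F := fun a => Subgroup.subset_closure a.2
    have hc1 : Nat.card A = A.card := by simp
    rw [← hc1, Subgroup.index]
    apply Nat.card_le_card_of_injective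
      (fun a : A => (QuotientGroup.mk (⟨a.1, hAF a⟩ : F) : F ⧸ φ.range))
    intro a b hab
    have h1 := (QuotientGroup.eq).1 hab
    obtain ⟨c, hc⟩ := h1
    have h2 := congrArg Subtype.val hc
    have h3 : (a.1)⁻¹ * b.1 ∈ R := ⟨c.1, by simpa [φ] using h2⟩
    have h4 : (QuotientGroup.mk a.1 : T ⧸ R) = QuotientGroup.mk b.1 := (QuotientGroup.eq).2 h3
    obtain ⟨x, hx, hxa⟩ := Finset.mem_image.1 a.2
    obtain ⟨y, hy, hyb⟩ := Finset.mem_image.1 b.2
    apply Subtype.ext
    have h5 : x = y := by
      have hx' : (QuotientGroup.mk a.1 : T ⧸ R) = x := by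
        rw [← hxa]; exact Quotient.out_eq x
      have hy' : (QuotientGroup.mk b.1 : T ⧸ R) = y := by
        rw [← hyb]; exact Quotient.out_eq y
      rw [← hx', ← hy', h4]
    rw [← hxa, ← hyb, h5]
  omega

theorem divisible_part {T : Type} [CommGroup T] (ht : ∀ a : T, IsOfFinOrder a)
    (hs : {a : T | ∃ q : ℕ, q.Prime ∧ a ^ q = 1}.Finite) :
    ∃ D : Subgroup T, D.index ≠ 0 ∧ (∀ a ∈ D, ∀ m : ℕ, 0 < m → ∃ b ∈ D, b ^ m = a) ∧
      D.Characteristic := by
  classical
  set N : ℕ := ∏ a ∈ hs.toFinset, orderOf a with hN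
  have hNpos : 0 < N := Finset.prod_pos fun a _ => (orderOf_pos_iff.2 (ht a))
  have hqN : ∀ (x : T) (q : ℕ), q.Prime → q ∣ orderOf x → q ∣ N := by
    intro x q hq hqx
    have h0 : orderOf x ≠ 0 := (orderOf_pos_iff.2 (ht x)).ne'
    have h1 : orderOf (x ^ (orderOf x / q)) = q := orderOf_pow_orderOf_div h0 hqx
    have h2 : x ^ (orderOf x / q) ∈ hs.toFinset := by
      rw [Set.Finite.mem_toFinset]
      refine ⟨q, hq, ?_⟩
      have := pow_orderOf_eq_one (x ^ (orderOf x / q))
      rwa [h1] at this
    have h3 := Finset.dvd_prod_of_mem (fun a : T => orderOf a) h2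
    simp only [h1] at h3
    exact h3
  let R : ℕ → Subgroup T := fun i => (powMonoidHom (N ^ i) : T →* T).range
  have hRm : ∀ (i : ℕ) (x : T), x ∈ R i ↔ ∃ z : T, z ^ (N ^ i) = x := by
    intro i x
    simp only [R, MonoidHom.mem_range, powMonoidHom_apply]
  have hRs : ∀ i, R (i + 1) ≤ R i := by
    intro i x hx
    obtain ⟨z, hz⟩ := (hRm _ _).1 hx
    refine (hRm _ _).2 ⟨z ^ N, ?_⟩
    rw [← hz, ← pow_mul]
    congr 1
    ring
  have hRa : Antitone R := antitone_nat_of_succ_le hRs
  let E : ℕ → Set T := fun i => {a : T | a ∈ R i ∧ a ^ N = 1}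
  have hEf : ∀ i, (E i).Finite := fun i =>
    (dpaux_fin hs N hNpos).subset fun a ha => ha.2
  obtain ⟨k, hk⟩ : ∃ k, ∀ i, (E k).ncard ≤ (E i).ncard := by
    have hne : (Set.range fun i => (E i).ncard).Nonempty := ⟨_, 0, rfl⟩
    obtain ⟨k, hk⟩ := Nat.sInf_mem hne
    refine ⟨k, fun i => ?_⟩
    have h1 : (fun i => (E i).ncard) k = sInf (Set.range fun i => (E i).ncard) := hk
    have h2 := Nat.sInf_le (s := Set.range fun i => (E i).ncard) ⟨i, rfl⟩
    simp only at h1 h2
    omega
  have hEe : ∀ i, k ≤ i → E k ⊆ E i := by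
    intro i hi
    have h1 : E i ⊆ E k := fun a ha => ⟨hRa hi ha.1, ha.2⟩
    have h2 := Set.eq_of_subset_of_ncard_le h1 (hk i) (hEf k)
    exact h2.symm.subset
  have key : ∀ n : ℕ, ∀ x : T, orderOf x = n → x ∈ R k → ∀ i, k ≤ i → x ∈ R i := by
    intro n
    induction n using Nat.strong_induction_on with
    | _ n ih =>
      intro x hx hxk i hi
      have h0 : 0 < orderOf x := orderOf_pos_iff.2 (ht x)
      by_cases h1 : n = 1
      · have : x = 1 := orderOf_eq_one_iff.1 (hx.trans h1)
        rw [this]
        exact one_mem _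
      · have hq : (Nat.minFac n).Prime := Nat.minFac_prime h1
        set q := Nat.minFac n with hqd
        have hqx : q ∣ orderOf x := by rw [hx]; exact Nat.minFac_dvd n
        obtain ⟨N', hN'⟩ := hqN x q hq hqx
        have h2 : orderOf (x ^ q) = orderOf x / q := by
          rw [orderOf_pow' x hq.ne_zero, Nat.gcd_eq_right hqx]
        have h3 : orderOf (x ^ q) < n := by
          rw [h2, ← hx]
          exact Nat.div_lt_self h0 hq.one_lt
        have h4 := ih _ h3 (x ^ q) rfl ((R k).pow_mem hxk q) (i + 1) (by omega)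
        obtain ⟨z, hz⟩ := (hRm _ _).1 h4
        have hw : (z ^ N') ^ (N ^ i) ∈ R i := (hRm _ _).2 ⟨z ^ N', rfl⟩
        set w := (z ^ N') ^ (N ^ i) with hwd
        have hwq : w ^ q = x ^ q := by
          rw [← hz, hwd, ← pow_mul, ← pow_mul]
          congr 1
          rw [pow_succ]
          conv_rhs => rw [hN']
          conv_lhs => rw [hN']
          ring
        have he : x * w⁻¹ ∈ E k := by
          refine ⟨(R k).mul_mem hxk ((R k).inv_mem (hRa hi hw)), ?_⟩
          have : (x * w⁻¹) ^ q = 1 := by
            rw [mul_pow, inv_pow, hwq, mul_inv_cancel]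
          rw [hN', pow_mul, this, one_pow]
        have he2 := (hEe i hi he).1
        have := (R i).mul_mem he2 hw
        simpa using this
  refine ⟨R k, dpaux_index ht _ (dpaux_fin hs _ (pow_pos hNpos k)), ?_, ?_⟩
  · have hprime : ∀ q : ℕ, q.Prime → ∀ a ∈ R k, ∃ b ∈ R k, b ^ q = a := by
      intro q hq a ha
      by_cases hqn : q ∣ N
      · obtain ⟨N', hN'⟩ := hqn
        have h1 := key _ a rfl ha (k + 1) (by omega)
        obtain ⟨z, hz⟩ := (hRm _ _).1 h1
        refine ⟨(z ^ N') ^ (N ^ k), (hRm _ _).2 ⟨_, rfl⟩, ?_⟩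
        rw [← hz, ← pow_mul, ← pow_mul]
        congr 1
        rw [pow_succ]
        conv_rhs => rw [hN']
        conv_lhs => rw [hN']
        ring
      · have h1 : ¬ q ∣ orderOf a := fun h => hqn (hqN a q hq h)
        have h2 : Nat.Coprime q (orderOf a) := (Nat.Prime.coprime_iff_not_dvd hq).2 h1
        obtain ⟨m, hm⟩ := exists_pow_eq_self_of_coprime h2
        refine ⟨a ^ m, (R k).pow_mem ha m, ?_⟩
        rw [← pow_mul, mul_comm, pow_mul]
        exact hm
    intro a ha m
    induction m using Nat.strong_induction_on generalizing a with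
    | _ m ih =>
      intro hm
      by_cases h1 : m = 1
      · exact ⟨a, ha, by rw [h1, pow_one]⟩
      · have hq : (Nat.minFac m).Prime := Nat.minFac_prime h1
        obtain ⟨m', hm'⟩ := Nat.minFac_dvd m
        obtain ⟨b, hb, hba⟩ := hprime _ hq a ha
        have hm0 : 0 < m' := by
          rcases Nat.eq_zero_or_pos m' with h | h
          · rw [h] at hm'; omega
          · exact h
        have hlt : m' < m := by
          have := hq.two_le
          calc m' < 2 * m' := by omega
            _ ≤ m.minFac * m' := Nat.mul_le_mul_right _ this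
            _ = m := hm'.symm
        obtain ⟨c, hc, hcb⟩ := ih m' hlt b hb hm0
        refine ⟨c, hc, ?_⟩
        rw [hm', mul_comm, pow_mul, hcb, hba]
  · rw [Subgroup.characteristic_iff_map_le]
    intro ϕ y hy
    obtain ⟨x, hx, hxy⟩ := Subgroup.mem_map.1 hy
    obtain ⟨z, hz⟩ := (hRm _ _).1 hx
    refine (hRm _ _).2 ⟨ϕ z, ?_⟩
    rw [← hxy, ← hz]
    simp

end Pool.Agent.Helper75.PM
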