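import Pool.Agent.Helper75.PM.Defs

set_option autoImplicit false

namespace Pool.Agent.Helper75.PM



open scoped commutatorElement in
theorem fq_comm {K : Type} [Group K] (hZ : (Subgroup.center K).FiniteIndex) : Finite (commutatorSet K) := by
  classical
  let F : (K ⧸ Subgroup.center K) × (K ⧸ Subgroup.center K) → K := fun q => ⁅q.1.out, q.2.out⁆
  have hfin : (Set.range F).Finite := Set.finite_range F
  apply Set.Finite.subset hfin
  rintro g ⟨a, b, rfl⟩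
  refine ⟨((a : K ⧸ Subgroup.center K), (b : K ⧸ Subgroup.center K)), ?_⟩
  obtain ⟨z, hz⟩ := QuotientGroup.mk_out_eq_mul (Subgroup.center K) a
  obtain ⟨w, hw⟩ := QuotientGroup.mk_out_eq_mul (Subgroup.center K) b
  have hzc : ∀ x : K, x * (z : K) = (z : K) * x := fun x => Subgroup.mem_center_iff.1 z.2 x
  have hwc : ∀ x : K, x * (w : K) = (w : K) * x := fun x => Subgroup.mem_center_iff.1 w.2 x
  show ⁅((a : K ⧸ Subgroup.center K)).out, ((b : K ⧸ Subgroup.center K)).out⁆ = ⁅a, b⁆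
  rw [hz, hw, commutatorElement_def, commutatorElement_def]
  have hzi : ∀ x : K, x * (z : K)⁻¹ = (z : K)⁻¹ * x := fun x => by
    rw [eq_inv_mul_iff_mul_eq, ← mul_assoc, ← hzc x, mul_inv_cancel_right]
  have hwi : ∀ x : K, x * (w : K)⁻¹ = (w : K)⁻¹ * x := fun x => by
    rw [eq_inv_mul_iff_mul_eq, ← mul_assoc, ← hwc x, mul_inv_cancel_right]
  rw [mul_inv_rev, mul_inv_rev]
  calc a * (z : K) * (b * (w : K)) * ((z : K)⁻¹ * a⁻¹) * ((w : K)⁻¹ * b⁻¹)
      = a * ((z : K) * b) * (w : K) * (z : K)⁻¹ * a⁻¹ * (w : K)⁻¹ * b⁻¹ := by group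
    _ = a * (b * (z : K)) * (w : K) * (z : K)⁻¹ * a⁻¹ * (w : K)⁻¹ * b⁻¹ := by rw [hzc b]
    _ = a * b * ((z : K) * (w : K)) * (z : K)⁻¹ * a⁻¹ * (w : K)⁻¹ * b⁻¹ := by group
    _ = a * b * ((w : K) * (z : K)) * (z : K)⁻¹ * a⁻¹ * (w : K)⁻¹ * b⁻¹ := by rw [hwc (z : K)]
    _ = a * b * (w : K) * (a⁻¹ * (w : K)⁻¹) * b⁻¹ := by group
    _ = a * b * (w : K) * ((w : K)⁻¹ * a⁻¹) * b⁻¹ := by rw [hwi]
    _ = a * b * a⁻¹ * b⁻¹ := by group

theorem fq_pel {A : Type} [CommGroup A] (p : ℕ) {Q : Type} [Group Q] (φ : Kp p Q →* A)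
    (x : Kp p Q) : ∃ k : ℕ, φ x ^ (p ^ k) = 1 := by
  obtain ⟨x, hx⟩ := x
  have hx' : x ∈ Subgroup.closure {g : Q | ∃ k : ℕ, g ^ (p ^ k) = 1} := hx
  induction hx' using Subgroup.closure_induction with
  | mem g hg =>
    obtain ⟨k, hk⟩ := hg
    refine ⟨k, ?_⟩
    rw [← map_pow]
    have : (⟨g, hx⟩ : Kp p Q) ^ (p ^ k) = 1 := Subtype.ext (by simpa using hk)
    rw [this, map_one]
  | one =>
    refine ⟨0, ?_⟩
    have : (⟨1, hx⟩ : Kp p Q) = 1 := rfl
    rw [this, map_one, one_pow]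
  | mul a b ha hb iha ihb =>
    obtain ⟨k, hk⟩ := iha ha
    obtain ⟨l, hl⟩ := ihb hb
    refine ⟨k + l, ?_⟩
    have : (⟨a * b, hx⟩ : Kp p Q) = ⟨a, ha⟩ * ⟨b, hb⟩ := rfl
    rw [this, map_mul, mul_pow, pow_add, pow_mul, hk, one_pow, one_mul, mul_comm (p ^ k), pow_mul, hl, one_pow]
  | inv a ha iha =>
    obtain ⟨k, hk⟩ := iha ha
    refine ⟨k, ?_⟩
    have : (⟨a⁻¹, hx⟩ : Kp p Q) = (⟨a, ha⟩ : Kp p Q)⁻¹ := rfl
    rw [this, map_inv, inv_pow, hk, inv_one]

theorem finite_quot (p : ℕ) (hp : p.Prime) {Q : Type} [Group Q] (N : Subgroup Q) [N.Normal]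
    (hi : N.index ≠ 0) (hab : ∀ a ∈ N, ∀ b ∈ N, a * b = b * a)
    (hN : ∀ a ∈ N, ∃ m : ℕ, 0 < m ∧ m.Coprime p ∧ a ^ m = 1)
    (hc : ∀ x : Q, (∃ k : ℕ, x ^ (p ^ k) = 1) → ∀ n ∈ N, x * n = n * x) :
    Finite (Kp p Q) := by
  classical
  haveI : N.FiniteIndex := ⟨hi⟩
  have hcK : ∀ x ∈ Kp p Q, ∀ n ∈ N, x * n = n * x := by
    intro x hx
    have hx' : x ∈ Subgroup.closure {g : Q | ∃ k : ℕ, g ^ (p ^ k) = 1} := hx
    intro n hn
    have hle : Subgroup.closure {g : Q | ∃ k : ℕ, g ^ (p ^ k) = 1} ≤ Subgroup.centralizer {n} := by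
      rw [Subgroup.closure_le]
      intro g hg
      rw [SetLike.mem_coe, Subgroup.mem_centralizer_iff]
      intro h hh
      rw [Set.mem_singleton_iff] at hh
      subst hh
      exact (hc g hg _ hn).symm
    have := hle hx'
    rw [Subgroup.mem_centralizer_iff] at this
    exact (this n rfl).symm
  have hcen : N.subgroupOf (Kp p Q) ≤ Subgroup.center (Kp p Q) := by
    intro y hy
    rw [Subgroup.mem_center_iff]
    intro g
    apply Subtype.ext
    exact hcK g g.2 y (Subgroup.mem_subgroupOf.1 hy)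
  haveI hfi : (N.subgroupOf (Kp p Q)).FiniteIndex := inferInstance
  have hZ : (Subgroup.center (Kp p Q)).FiniteIndex := Subgroup.finiteIndex_of_le hcen
  haveI := fq_comm hZ
  haveI hfc : Finite (_root_.commutator (Kp p Q)) := inferInstance
  have hle : N.subgroupOf (Kp p Q) ≤ _root_.commutator (Kp p Q) := by
    intro y hy
    have hyN : (y : Q) ∈ N := Subgroup.mem_subgroupOf.1 hy
    obtain ⟨m, hm0, hm, hym⟩ := hN y hyN
    obtain ⟨k, hk⟩ := fq_pel p (Abelianization.of (G := Kp p Q)) y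
    have h1 : (Abelianization.of y) ^ m = 1 := by
      rw [← map_pow]
      have : y ^ m = 1 := Subtype.ext (by simpa using hym)
      rw [this, map_one]
    have h2 : Abelianization.of y = 1 := by
      have hco : Nat.Coprime m (p ^ k) := Nat.Coprime.pow_right k hm
      have d1 := orderOf_dvd_of_pow_eq_one h1
      have d2 := orderOf_dvd_of_pow_eq_one hk
      have d3 : orderOf (Abelianization.of y) ∣ 1 := by
        rw [← Nat.Coprime.gcd_eq_one hco]
        exact Nat.dvd_gcd d1 d2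
      exact orderOf_eq_one_iff.1 (Nat.dvd_one.1 d3)
    exact (QuotientGroup.eq_one_iff y).1 h2
  haveI hfN : Finite (N.subgroupOf (Kp p Q)) :=
    Finite.of_injective (Subgroup.inclusion hle) (Subgroup.inclusion_injective hle)
  haveI hfq : Finite (Kp p Q ⧸ N.subgroupOf (Kp p Q)) := inferInstance
  exact Finite.of_equiv _ (Subgroup.groupEquivQuotientProdSubgroup (s := N.subgroupOf (Kp p Q))).symm

end Pool.Agent.Helper75.PM
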