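import Pool.Agent.Helper75.PM.Defs

set_option autoImplicit false

namespace Pool.Agent.Helper75.PM



theorem has_sub_hom0 (K V : Type) [Field K] [AddCommGroup V] [Module K V] (v : V) (hv : v ≠ 0) :
    ∃ f : V →+ K, f v ≠ 0 := by
  by_contra hcon
  push Not at hcon
  exact hv ((Module.forall_dual_apply_eq_zero_iff K v).mp fun φ => hcon φ.toAddMonoidHom)

theorem has_sub_hom (q : ℕ) [Fact q.Prime] {V : Type} [AddCommGroup V]
    (hexp : ∀ v : V, q • v = 0) (v : V) (hv : v ≠ 0) : ∃ f : V →+ ZMod q, f v ≠ 0 :=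
  @has_sub_hom0 (ZMod q) V _ _ (AddCommGroup.zmodModule hexp) v hv

theorem has_sub {S : Type} [CommGroup S] (x : MulAut S) (hx : IsOfFinOrder x)
    (hS : Infinite S) (hp : ∀ s : S, ∃ m : ℕ, Squarefree m ∧ s ^ m = 1) :
    ∃ T : Subgroup S, T ≠ ⊤ ∧ T.index ≠ 0 ∧ ∀ t ∈ T, x t ∈ T := by
  obtain ⟨s, hs⟩ := exists_ne (1 : S)
  obtain ⟨m, hm, hsm⟩ := hp s
  have hn1 : orderOf s ≠ 1 := by rwa [ne_eq, orderOf_eq_one_iff]
  obtain ⟨q, hqp, hqd⟩ := Nat.exists_prime_and_dvd hn1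
  have hs0 : 0 < orderOf s :=
    orderOf_pos_iff.mpr (isOfFinOrder_iff_pow_eq_one.mpr ⟨m, Nat.pos_of_ne_zero hm.ne_zero, hsm⟩)
  obtain ⟨r, hr⟩ := hqd
  obtain ⟨s', hs'⟩ : ∃ s', s' = s ^ r := ⟨_, rfl⟩
  have hs'q : s' ^ q = 1 := by rw [hs', ← pow_mul, mul_comm, ← hr, pow_orderOf_eq_one]
  have hs'1 : s' ≠ 1 := by
    intro h
    rw [hs'] at h
    have h1 := orderOf_dvd_of_pow_eq_one h
    rw [hr] at h1
    have hr0 : 0 < r := by
      rcases Nat.eq_zero_or_pos r with h0 | h0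
      · rw [h0, mul_zero] at hr
        omega
      · exact h0
    have h2 := Nat.le_of_dvd hr0 h1
    have h3 := hqp.two_le
    nlinarith
  haveI := Fact.mk hqp
  obtain ⟨P, hPdef⟩ : ∃ P : Subgroup S, P = (powMonoidHom q : S →* S).range := ⟨_, rfl⟩
  have hP : s' ∉ P := by
    rw [hPdef]
    rintro ⟨t, ht⟩
    have ht' : t ^ q = s' := ht
    obtain ⟨m', hm', htm⟩ := hp t
    have h2 : t ^ (q ^ 2) = 1 := by rw [pow_two, pow_mul, ht', hs'q]
    have h3 : orderOf t ∣ q ^ 2 := orderOf_dvd_of_pow_eq_one h2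
    have h4 : Squarefree (orderOf t) := hm'.squarefree_of_dvd (orderOf_dvd_of_pow_eq_one htm)
    obtain ⟨j, hj, hj'⟩ := (Nat.dvd_prime_pow hqp).mp h3
    have hj1 : j ≤ 1 := by
      by_contra hcon
      have hj2 : j = 2 := by omega
      rw [hj', hj2] at h4
      have h5 := h4 q (by rw [pow_two])
      exact hqp.one_lt.ne' (Nat.isUnit_iff.mp h5)
    have h6 : orderOf t ∣ q := by
      rw [hj']
      calc q ^ j ∣ q ^ 1 := pow_dvd_pow q hj1
        _ = q := pow_one q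
    have h7 : t ^ q = 1 := orderOf_dvd_iff_pow_eq_one.mp h6
    exact hs'1 (ht' ▸ h7)
  have hexp : ∀ y : S ⧸ P, y ^ q = 1 := by
    intro y
    obtain ⟨z, rfl⟩ := QuotientGroup.mk_surjective y
    rw [← QuotientGroup.mk_pow, QuotientGroup.eq_one_iff, hPdef]
    exact ⟨z, rfl⟩
  have hne : Additive.ofMul (QuotientGroup.mk s' : S ⧸ P) ≠ 0 := by
    intro h
    have h' : (QuotientGroup.mk s' : S ⧸ P) = 1 := congrArg Additive.toMul h
    exact hP ((QuotientGroup.eq_one_iff s').mp h')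
  obtain ⟨f, hf⟩ := has_sub_hom q (V := Additive (S ⧸ P)) (fun y => by
      have h := hexp y.toMul
      exact congrArg Additive.ofMul h) _ hne
  let Φ : S →* Multiplicative (ZMod q) := MonoidHom.mk'
    (fun t => Multiplicative.ofAdd (f (Additive.ofMul (QuotientGroup.mk t : S ⧸ P)))) (by
      intro a b
      rw [QuotientGroup.mk_mul, ofMul_mul, map_add, ofAdd_add])
  have hΦs : s' ∉ Φ.ker := by
    intro h
    have h1 : Multiplicative.ofAdd (f (Additive.ofMul (QuotientGroup.mk s' : S ⧸ P))) = 1 := h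
    exact hf (congrArg Multiplicative.toAdd h1)
  have hΦi : Φ.ker.index ≠ 0 := by
    rw [Subgroup.index_ker]
    haveI : Finite (Multiplicative (ZMod q)) := inferInstanceAs (Finite (ZMod q))
    exact Nat.card_pos.ne'
  have hN : 0 < orderOf x := orderOf_pos_iff.mpr hx
  obtain ⟨T, hT⟩ : ∃ T : Subgroup S, T = ⨅ j : Fin (orderOf x),
      Φ.ker.comap ((x ^ (j : ℕ) : MulAut S).toMonoidHom) := ⟨_, rfl⟩
  have hmem : ∀ t : S, t ∈ T ↔ ∀ j : ℕ, (x ^ j) t ∈ Φ.ker := by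
    intro t
    rw [hT, Subgroup.mem_iInf]
    constructor
    · intro h j
      have h1 := h ⟨j % orderOf x, Nat.mod_lt _ hN⟩
      rw [Subgroup.mem_comap] at h1
      have h2 : (x ^ (j % orderOf x)) t ∈ Φ.ker := h1
      rwa [pow_mod_orderOf] at h2
    · intro h j
      rw [Subgroup.mem_comap]
      exact h j
  refine ⟨T, ?_, ?_, ?_⟩
  · intro h
    have h1 : s' ∈ T := h ▸ Subgroup.mem_top s'
    have h2 := (hmem s').mp h1 0
    rw [pow_zero] at h2
    exact hΦs h2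
  · rw [hT]
    refine Subgroup.index_iInf_ne_zero fun j => ?_
    rw [Subgroup.index_comap_of_surjective _ (MulEquiv.surjective _)]
    exact hΦi
  · intro t ht
    rw [hmem] at ht ⊢
    intro j
    have h1 := ht (j + 1)
    rw [pow_succ, MulAut.mul_apply] at h1
    exact h1

end Pool.Agent.Helper75.PM
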