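import Pool.Agent.Helper75.PM.Defs
import Pool.Agent.Helper75.PM.P_has_sub
import Pool.Agent.Helper75.PM.P_chain

set_option autoImplicit false

namespace Pool.Agent.Helper75.PM



theorem cm_le {G : Type} [Group G] (N : Subgroup G) [N.Normal] (x : G) : cm N x ≤ N := by
  unfold cm
  rw [Subgroup.closure_le]
  rintro g ⟨n, hn, rfl⟩
  have h : x * n⁻¹ * x⁻¹ ∈ N := Subgroup.Normal.conj_mem inferInstance _ (N.inv_mem hn) x
  have := N.mul_mem hn h
  simpa [mul_assoc] using this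

theorem cm_conj {G : Type} [Group G] (N : Subgroup G) [N.Normal] (x : G) (a : G)
    (ha : a ∈ cm N x) : x * a * x⁻¹ ∈ cm N x := by
  unfold cm at ha ⊢
  induction ha using Subgroup.closure_induction with
  | mem y hy =>
    obtain ⟨n, hn, rfl⟩ := hy
    apply Subgroup.subset_closure
    refine ⟨x * n * x⁻¹, Subgroup.Normal.conj_mem inferInstance _ hn x, ?_⟩
    group
  | one => simp
  | mul a b _ _ iha ihb =>
    have : x * (a * b) * x⁻¹ = (x * a * x⁻¹) * (x * b * x⁻¹) := by group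
    rw [this]; exact Subgroup.mul_mem _ iha ihb
  | inv a _ iha =>
    have : x * a⁻¹ * x⁻¹ = (x * a * x⁻¹)⁻¹ := by group
    rw [this]; exact Subgroup.inv_mem _ iha

theorem sqf_lcm {m k : ℕ} (hm : Squarefree m) (hk : Squarefree k) : Squarefree (Nat.lcm m k) := by
  have hm0 : m ≠ 0 := hm.ne_zero
  have hk0 : k ≠ 0 := hk.ne_zero
  rw [Nat.squarefree_iff_factorization_le_one (Nat.lcm_ne_zero hm0 hk0)]
  intro q
  rw [Nat.factorization_lcm hm0 hk0, Finsupp.sup_apply]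
  exact sup_le ((Nat.squarefree_iff_factorization_le_one hm0).1 hm q)
    ((Nat.squarefree_iff_factorization_le_one hk0).1 hk q)

/-- the squarefree part of `cm N x` -/
def T0 {G : Type} [Group G] (N : Subgroup G) [N.Normal] (hab : ∀ a ∈ N, ∀ b ∈ N, a * b = b * a)
    (x : G) : Subgroup G where
  carrier := {a | a ∈ cm N x ∧ ∃ m : ℕ, Squarefree m ∧ a ^ m = 1}
  one_mem' := ⟨Subgroup.one_mem _, 1, squarefree_one, by simp⟩
  mul_mem' := by
    rintro a b ⟨ha, m, hm, ham⟩ ⟨hb, k, hk, hbk⟩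
    refine ⟨Subgroup.mul_mem _ ha hb, Nat.lcm m k, sqf_lcm hm hk, ?_⟩
    have hc : Commute a b := hab a (cm_le N x ha) b (cm_le N x hb)
    rw [hc.mul_pow]
    obtain ⟨u, hu⟩ := Nat.dvd_lcm_left m k
    obtain ⟨v, hv⟩ := Nat.dvd_lcm_right m k
    have h1 : a ^ Nat.lcm m k = 1 := by rw [hu, pow_mul, ham, one_pow]
    have h2 : b ^ Nat.lcm m k = 1 := by rw [hv, pow_mul, hbk, one_pow]
    rw [h1, h2, one_mul]
  inv_mem' := by
    rintro a ⟨ha, m, hm, ham⟩
    exact ⟨Subgroup.inv_mem _ ha, m, hm, by rw [inv_pow, ham, inv_one]⟩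

theorem socle_step (p : ℕ) (hp : p.Prime) {G : Type} [Group G]
    (N : Subgroup G) [N.Normal] (hab : ∀ a ∈ N, ∀ b ∈ N, a * b = b * a)
    (x : G) (hx : ∃ k : ℕ, x ^ (p ^ k) = 1) (T : Subgroup G)
    (hT0 : T ≤ T0 N hab x) (hTi : Infinite T) (hTx : ∀ t ∈ T, x * t * x⁻¹ ∈ T) :
    ∃ T' : Subgroup G, T' ≤ T0 N hab x ∧ Infinite T' ∧ (∀ t ∈ T', x * t * x⁻¹ ∈ T') ∧
      T' < T := by
  obtain ⟨k, hk⟩ := hx
  have hM : 0 < p ^ k := pow_pos hp.pos k
  have hconj : ∀ j : ℕ, ∀ t ∈ T, x ^ j * t * (x ^ j)⁻¹ ∈ T := by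
    intro j
    induction j with
    | zero => intro t ht; simpa using ht
    | succ j ih =>
      intro t ht
      have := hTx _ (ih t ht)
      have e : x ^ (j + 1) * t * (x ^ (j + 1))⁻¹ = x * (x ^ j * t * (x ^ j)⁻¹) * x⁻¹ := by
        rw [pow_succ']; group
      rw [e]; exact this
  have hxinv : x ^ (p ^ k - 1) = x⁻¹ := by
    apply eq_inv_of_mul_eq_one_left
    rw [← pow_succ, Nat.sub_add_cancel hM, hk]
  have hinv : ∀ t ∈ T, x⁻¹ * t * x ∈ T := by
    intro t ht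
    have := hconj (p ^ k - 1) t ht
    rw [hxinv, inv_inv] at this
    exact this
  have hcomm : ∀ a b : T, a * b = b * a := by
    intro a b
    apply Subtype.ext
    exact hab _ (cm_le N x (hT0 a.2).1) _ (cm_le N x (hT0 b.2).1)
  letI cg : CommGroup T := { (inferInstance : Group T) with mul_comm := hcomm }
  let φ : MulAut T :=
    { toFun := fun s => ⟨x * s.1 * x⁻¹, hTx s.1 s.2⟩
      invFun := fun s => ⟨x⁻¹ * s.1 * x, hinv s.1 s.2⟩
      left_inv := by
        intro s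
        apply Subtype.ext
        show x⁻¹ * (x * s.1 * x⁻¹) * x = s.1
        group
      right_inv := by
        intro s
        apply Subtype.ext
        show x * (x⁻¹ * s.1 * x) * x⁻¹ = s.1
        group
      map_mul' := by
        intro s t
        apply Subtype.ext
        show x * (s.1 * t.1) * x⁻¹ = (x * s.1 * x⁻¹) * (x * t.1 * x⁻¹)
        group }
  have hφ : ∀ j : ℕ, ∀ s : T, ((φ ^ j) s).1 = x ^ j * s.1 * (x ^ j)⁻¹ := by
    intro j
    induction j with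
    | zero => intro s; simp
    | succ j ih =>
      intro s
      rw [pow_succ']
      show x * ((φ ^ j) s).1 * x⁻¹ = _
      rw [ih s, pow_succ']
      group
  have hfin : IsOfFinOrder φ := by
    rw [isOfFinOrder_iff_pow_eq_one]
    refine ⟨p ^ k, hM, ?_⟩
    ext s
    rw [hφ, hk]
    simp
  have hp' : ∀ s : T, ∃ m : ℕ, Squarefree m ∧ s ^ m = 1 := by
    intro s
    obtain ⟨_, m, hm, h⟩ := hT0 s.2
    exact ⟨m, hm, Subtype.ext h⟩
  obtain ⟨T1, hne, hidx, hinvt⟩ := has_sub φ hfin hTi hp'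
  refine ⟨T1.map T.subtype, ?_, ?_, ?_, ?_⟩
  · rintro _ ⟨t, _, rfl⟩
    exact hT0 t.2
  · have hT1 : Infinite T1 := by
      by_contra hf
      rw [not_infinite_iff_finite] at hf
      have h1 := T1.card_mul_index
      have h2 : Nat.card T1 ≠ 0 := Nat.card_pos.ne'
      have h3 : Nat.card T ≠ 0 := by
        rw [← h1]; exact Nat.mul_ne_zero h2 hidx
      have h4 := Nat.finite_of_card_ne_zero h3
      exact not_finite_iff_infinite.2 hTi h4
    refine Infinite.of_injective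
      (fun t : T1 => (⟨t.1.1, ⟨t.1, t.2, rfl⟩⟩ : T1.map T.subtype)) ?_
    intro a b hab'
    have := congrArg Subtype.val hab'
    exact Subtype.ext (Subtype.ext this)
  · rintro _ ⟨t, ht, rfl⟩
    exact ⟨φ t, hinvt t ht, rfl⟩
  · refine lt_of_le_of_ne ?_ ?_
    · rintro _ ⟨t, _, rfl⟩
      exact t.2
    · intro h
      apply hne
      rw [eq_top_iff]
      intro t _
      have h1 : (t : G) ∈ T1.map T.subtype := by rw [h]; exact t.2
      obtain ⟨u, hu, hut⟩ := h1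
      have : u = t := Subtype.ext hut
      rw [← this]; exact hu

theorem socle (p : ℕ) (hp : p.Prime) {G : Type} [Group G] (hlf : LF G) (hm : PMin p G)
    (N : Subgroup G) [N.Normal] (hab : ∀ a ∈ N, ∀ b ∈ N, a * b = b * a)
    (hN : ∀ a ∈ N, ∀ k : ℕ, a ^ (p ^ k) = 1 → a = 1) (x : G) (hx : ∃ k : ℕ, x ^ (p ^ k) = 1) :
    {a : G | a ∈ cm N x ∧ ∃ q : ℕ, q.Prime ∧ a ^ q = 1}.Finite := by
  by_contra hinf
  rw [← Set.Infinite] at hinf
  have h0 : Infinite (T0 N hab x) := by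
    have hsub : {a : G | a ∈ cm N x ∧ ∃ q : ℕ, q.Prime ∧ a ^ q = 1} ⊆ (T0 N hab x : Set G) := by
      rintro a ⟨ha, q, hq, haq⟩
      exact ⟨ha, q, hq.prime.squarefree, haq⟩
    exact (hinf.mono hsub).to_subtype
  have h0x : ∀ t ∈ T0 N hab x, x * t * x⁻¹ ∈ T0 N hab x := by
    rintro t ⟨ht, m, hm, htm⟩
    refine ⟨cm_conj N x t ht, m, hm, ?_⟩
    rw [conj_pow, htm, mul_one, mul_inv_cancel]
  let Sg := {T : Subgroup G // T ≤ T0 N hab x ∧ Infinite T ∧ ∀ t ∈ T, x * t * x⁻¹ ∈ T}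
  have hs : ∀ T : Sg, ∃ T' : Sg, T'.1 < T.1 := by
    rintro ⟨T, h1, h2, h3⟩
    obtain ⟨T', a1, a2, a3, a4⟩ := socle_step p hp N hab x hx T h1 h2 h3
    exact ⟨⟨T', a1, a2, a3⟩, a4⟩
  choose step hstep using hs
  let seq : ℕ → Sg := fun n => step^[n] ⟨T0 N hab x, le_rfl, h0, h0x⟩
  refine chain p hp hlf hm N hab hN x hx (fun i => (seq i).1) ?_ ?_ ?_
  · intro i a ha
    exact ((seq i).2.1 ha).1
  · intro i
    exact (seq i).2.2.2
  · intro i
    show (seq (i + 1)).1 < (seq i).1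
    have : seq (i + 1) = step (seq i) := Function.iterate_succ_apply' step i _
    rw [this]
    exact hstep _

end Pool.Agent.Helper75.PM
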