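import Pool.Agent.Helper75.PM.Defs

set_option autoImplicit false

namespace Pool.Agent.Helper75.PM



theorem PM_ss_key {Γ : Type} [CommGroup Γ] (ht : ∀ a : Γ, IsOfFinOrder a) (A B : Subgroup Γ)
    (q : ℕ) (hA : {a : Γ | a ∈ A ∧ a ^ q = 1}.Finite) (hB : {a : Γ | a ∈ B ∧ a ^ q = 1}.Finite) :
    {a : Γ | a ∈ A ⊔ B ∧ a ^ q = 1}.Finite := by
  classical
  by_contra hinf
  have hinf' : {a : Γ | a ∈ A ⊔ B ∧ a ^ q = 1}.Infinite := hinf
  obtain ⟨X, hXs, hXc⟩ := hinf'.exists_subset_card_eq (hA.toFinset.card * hB.toFinset.card + 1)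
  have hdec : ∀ x : Γ, ∃ p : Γ × Γ, x ∈ X → p.1 ∈ A ∧ p.2 ∈ B ∧ p.1 * p.2 = x := by
    intro x
    by_cases hx : x ∈ X
    · have := (hXs hx).1
      obtain ⟨y, hy, z, hz, hyz⟩ := Subgroup.mem_sup.mp this
      exact ⟨(y, z), fun _ => ⟨hy, hz, hyz⟩⟩
    · exact ⟨1, fun h => absurd h hx⟩
  choose c hc using hdec
  obtain ⟨ψ, hψ⟩ : ∃ ψ : Γ × Γ →* Γ, ∀ p : Γ × Γ, ψ p = p.1 * p.2 :=
    ⟨(MonoidHom.id Γ).coprod (MonoidHom.id Γ), fun p => by simp [MonoidHom.coprod_apply]⟩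
  obtain ⟨K, hK⟩ : ∃ K : Subgroup (Γ × Γ), K = Subgroup.closure (c '' (X : Set Γ)) := ⟨_, rfl⟩
  haveI hfin0 : Finite (c '' (X : Set Γ)) := (X.finite_toSet.image c).to_subtype
  haveI hfg : Group.FG K := by
    rw [hK]
    exact Group.closure_finite_fg _
  have htor : Monoid.IsTorsion K := by
    intro k
    have h0 : IsOfFinOrder (k : Γ × Γ) := (ht (k : Γ × Γ).1).prod_mk (ht (k : Γ × Γ).2)
    obtain ⟨n, hn, hk⟩ := isOfFinOrder_iff_pow_eq_one.mp h0
    refine isOfFinOrder_iff_pow_eq_one.mpr ⟨n, hn, ?_⟩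
    apply Subtype.ext
    simpa using hk
  haveI hKfin : Finite K := CommGroup.finite_of_fg_torsion K htor
  have hKq : ∀ p ∈ K, (ψ p) ^ q = 1 := by
    have h0 : K ≤ ((powMonoidHom q : Γ →* Γ).comp ψ).ker := by
      rw [hK, Subgroup.closure_le]
      rintro _ ⟨x, hx, rfl⟩
      have h1 := hc x hx
      have h2 := (hXs hx).2
      show ((powMonoidHom q : Γ →* Γ).comp ψ) (c x) = 1
      simp only [MonoidHom.comp_apply, powMonoidHom_apply]
      rw [hψ, h1.2.2, h2]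
    intro p hp
    have := h0 hp
    rw [MonoidHom.mem_ker] at this
    simpa only [MonoidHom.comp_apply, powMonoidHom_apply] using this
  have hKA : ∀ p ∈ K, p.1 ∈ A ∧ p.2 ∈ B := by
    have h0 : K ≤ A.prod B := by
      rw [hK, Subgroup.closure_le]
      rintro _ ⟨x, hx, rfl⟩
      have h1 := hc x hx
      exact Subgroup.mem_prod.mpr ⟨h1.1, h1.2.1⟩
    intro p hp
    exact Subgroup.mem_prod.mp (h0 hp)
  obtain ⟨χ, hχ⟩ : ∃ χ : K →* Γ, χ = ψ.comp K.subtype := ⟨_, rfl⟩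
  obtain ⟨pw, hpw⟩ : ∃ pw : K →* K, ∀ k, pw k = k ^ q := ⟨powMonoidHom q, fun _ => rfl⟩
  have h1 : pw.range ≤ χ.ker := by
    rintro _ ⟨k, rfl⟩
    rw [MonoidHom.mem_ker, hpw, map_pow, hχ]
    exact hKq k k.2
  have hcard1 : Nat.card χ.ker * Nat.card χ.range = Nat.card K := by
    rw [← Subgroup.index_ker]
    exact Subgroup.card_mul_index _
  have hcard2 : Nat.card pw.ker * Nat.card pw.range = Nat.card K := by
    rw [← Subgroup.index_ker]
    exact Subgroup.card_mul_index _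
  have h3 : Nat.card pw.range ≤ Nat.card χ.ker := Subgroup.card_le_of_le h1
  have hpos : 0 < Nat.card χ.ker := Nat.card_pos
  have h4 : Nat.card χ.range ≤ Nat.card pw.ker := by
    have : Nat.card χ.ker * Nat.card χ.range ≤ Nat.card χ.ker * Nat.card pw.ker := by
      rw [hcard1, ← hcard2, mul_comm (Nat.card χ.ker)]
      exact Nat.mul_le_mul_left _ h3
    exact Nat.le_of_mul_le_mul_left this hpos
  have h5 : Nat.card pw.ker ≤ hA.toFinset.card * hB.toFinset.card := by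
    have hmem : ∀ k : pw.ker, ((k : K) : Γ × Γ) ∈ hA.toFinset ×ˢ hB.toFinset := by
      intro k
      have hk := k.2
      rw [MonoidHom.mem_ker, hpw] at hk
      have hk2 : (((k : K) : Γ × Γ)) ^ q = 1 := by
        have := congrArg (Subtype.val) hk
        simpa using this
      have hk3 := hKA _ (k : K).2
      rw [Finset.mem_product, Set.Finite.mem_toFinset, Set.Finite.mem_toFinset]
      exact ⟨⟨hk3.1, by rw [← Prod.pow_fst, hk2]; rfl⟩, ⟨hk3.2, by rw [← Prod.pow_snd, hk2]; rfl⟩⟩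
    have := Nat.card_le_card_of_injective
      (fun k : pw.ker => (⟨((k : K) : Γ × Γ), hmem k⟩ : ↥(hA.toFinset ×ˢ hB.toFinset)))
      (fun k1 k2 h => by
        have := congrArg Subtype.val h
        exact Subtype.ext (Subtype.ext this))
    rwa [Nat.card_eq_fintype_card (α := ↥(hA.toFinset ×ˢ hB.toFinset)), Fintype.card_coe,
      Finset.card_product] at this
  have h6 : X.card ≤ Nat.card χ.range := by
    have hmem : ∀ x : X, (x : Γ) ∈ χ.range := by
      intro x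
      have hx : c x ∈ K := by
        rw [hK]
        exact Subgroup.subset_closure ⟨x, x.2, rfl⟩
      refine ⟨⟨c x, hx⟩, ?_⟩
      rw [hχ]
      show ψ (c x) = x
      rw [hψ]
      exact (hc x x.2).2.2
    haveI : Finite χ.range := by
      have : Finite (Set.range χ) := Set.finite_range χ |>.to_subtype
      exact this
    have := Nat.card_le_card_of_injective
      (fun x : X => (⟨(x : Γ), hmem x⟩ : χ.range))
      (fun k1 k2 h => by
        have := congrArg Subtype.val h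
        exact Subtype.ext this)
    rwa [Nat.card_eq_fintype_card (α := ↥X), Fintype.card_coe] at this
  omega

theorem PM_ss_two {Γ : Type} [CommGroup Γ] (ht : ∀ a : Γ, IsOfFinOrder a) (A B : Subgroup Γ)
    (hA : {a : Γ | a ∈ A ∧ ∃ q : ℕ, q.Prime ∧ a ^ q = 1}.Finite)
    (hB : {a : Γ | a ∈ B ∧ ∃ q : ℕ, q.Prime ∧ a ^ q = 1}.Finite) :
    {a : Γ | a ∈ A ⊔ B ∧ ∃ q : ℕ, q.Prime ∧ a ^ q = 1}.Finite := by
  classical
  have hU := hA.union hB
  have hPr := hU.image (fun a : Γ => orderOf a)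
  have hbig : ({1} ∪ ⋃ q ∈ {q : ℕ | q ∈ (fun a : Γ => orderOf a) '' ({a : Γ | a ∈ A ∧ ∃ q : ℕ, q.Prime ∧ a ^ q = 1} ∪ {a : Γ | a ∈ B ∧ ∃ q : ℕ, q.Prime ∧ a ^ q = 1}) ∧ q.Prime}, {a : Γ | a ∈ A ⊔ B ∧ a ^ q = 1}).Finite := by
    refine (Set.finite_singleton _).union (Set.Finite.biUnion (hPr.subset fun q hq => hq.1) ?_)
    intro q hq
    refine PM_ss_key ht A B q (hA.subset ?_) (hB.subset ?_)
    · rintro a ⟨h1, h2⟩; exact ⟨h1, q, hq.2, h2⟩
    · rintro a ⟨h1, h2⟩; exact ⟨h1, q, hq.2, h2⟩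
  refine hbig.subset ?_
  rintro x ⟨hx, q, hq, hxq⟩
  by_cases hx1 : x = 1
  · exact Or.inl hx1
  right
  obtain ⟨a, ha, b, hb, hab⟩ := Subgroup.mem_sup.mp hx
  have haux : ∀ (C : Subgroup Γ) (d : Γ), d ∈ C → q ∣ orderOf d →
      ∃ e ∈ C, e ^ q = 1 ∧ orderOf e = q := by
    intro C d hd hqd
    have h0 : orderOf d ≠ 0 := (ht d).orderOf_pos.ne'
    have h1 := orderOf_pow_orderOf_div h0 hqd
    refine ⟨d ^ (orderOf d / q), C.pow_mem hd _, ?_, h1⟩
    have := pow_orderOf_eq_one (d ^ (orderOf d / q))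
    rwa [h1] at this
  have hmem : q ∈ (fun a : Γ => orderOf a) '' ({a : Γ | a ∈ A ∧ ∃ q : ℕ, q.Prime ∧ a ^ q = 1} ∪ {a : Γ | a ∈ B ∧ ∃ q : ℕ, q.Prime ∧ a ^ q = 1}) := by
    by_cases h1 : q ∣ orderOf a
    · obtain ⟨e, he, heq, heo⟩ := haux A a ha h1
      exact ⟨e, Or.inl ⟨he, q, hq, heq⟩, heo⟩
    by_cases h2 : q ∣ orderOf b
    · obtain ⟨e, he, heq, heo⟩ := haux B b hb h2
      exact ⟨e, Or.inr ⟨he, q, hq, heq⟩, heo⟩
    exfalso
    apply hx1
    have hc : Nat.Coprime q (orderOf a * orderOf b) := by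
      rw [Nat.Prime.coprime_iff_not_dvd hq, hq.dvd_mul]
      tauto
    have hx2 : x ^ (orderOf a * orderOf b) = 1 := by
      rw [← hab, mul_pow, pow_mul, pow_orderOf_eq_one, one_pow, mul_comm (orderOf a), pow_mul,
        pow_orderOf_eq_one, one_pow, one_mul]
    have h3 : orderOf x ∣ q := orderOf_dvd_of_pow_eq_one hxq
    have h4 : orderOf x ∣ orderOf a * orderOf b := orderOf_dvd_of_pow_eq_one hx2
    have h5 : orderOf x ∣ 1 := by
      have := Nat.dvd_gcd h3 h4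
      rwa [hc] at this
    rw [← orderOf_eq_one_iff]
    exact Nat.dvd_one.mp h5
  refine Set.mem_biUnion (x := q) ⟨hmem, hq⟩ ⟨hx, hxq⟩

theorem PM_ss_fin {Γ : Type} [CommGroup Γ] (ht : ∀ a : Γ, IsOfFinOrder a) (ι : Type) [Finite ι]
    (M : ι → Subgroup Γ)
    (hs : ∀ i, {a : Γ | a ∈ M i ∧ ∃ q : ℕ, q.Prime ∧ a ^ q = 1}.Finite) :
    {a : Γ | a ∈ ⨆ i, M i ∧ ∃ q : ℕ, q.Prime ∧ a ^ q = 1}.Finite := by
  classical
  haveI := Fintype.ofFinite ι
  have key : ∀ s : Finset ι, {a : Γ | a ∈ (⨆ i ∈ s, M i) ∧ ∃ q : ℕ, q.Prime ∧ a ^ q = 1}.Finite := by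
    intro s
    induction s using Finset.induction_on with
    | empty =>
      refine (Set.finite_singleton (1 : Γ)).subset ?_
      rintro a ⟨h1, h2⟩
      simpa using h1
    | insert i s hi ih =>
      rw [Finset.iSup_insert]
      exact PM_ss_two ht _ _ (hs i) ih
  have := key Finset.univ
  simpa using this

theorem socle_sup {G : Type} [Group G] (N : Subgroup G) (hab : ∀ a ∈ N, ∀ b ∈ N, a * b = b * a)
    (ht : ∀ a ∈ N, IsOfFinOrder a) (ι : Type) [Finite ι] (M : ι → Subgroup G)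
    (hM : ∀ i, M i ≤ N)
    (hs : ∀ i, {a : G | a ∈ M i ∧ ∃ q : ℕ, q.Prime ∧ a ^ q = 1}.Finite) :
    {a : G | a ∈ ⨆ i, M i ∧ ∃ q : ℕ, q.Prime ∧ a ^ q = 1}.Finite := by
  letI : CommGroup N := { (inferInstance : Group N) with
    mul_comm := fun a b => Subtype.ext (hab a a.2 b b.2) }
  have ht' : ∀ a : N, IsOfFinOrder a := by
    intro a
    obtain ⟨n, hn, hk⟩ := isOfFinOrder_iff_pow_eq_one.mp (ht a a.2)
    refine isOfFinOrder_iff_pow_eq_one.mpr ⟨n, hn, ?_⟩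
    apply Subtype.ext
    simpa using hk
  have hs' : ∀ i, {a : N | a ∈ (M i).subgroupOf N ∧ ∃ q : ℕ, q.Prime ∧ a ^ q = 1}.Finite := by
    intro i
    refine Set.Finite.of_finite_image ((hs i).subset ?_) (f := (Subtype.val : N → G))
      Subtype.val_injective.injOn
    rintro _ ⟨a, ⟨h1, q, hq, h2⟩, rfl⟩
    refine ⟨Subgroup.mem_subgroupOf.mp h1, q, hq, ?_⟩
    have := congrArg (Subtype.val) h2
    simpa using this
  have hfin := PM_ss_fin ht' ι (fun i => (M i).subgroupOf N) hs'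
  have hsup : (⨆ i, M i) = (⨆ i, (M i).subgroupOf N).map N.subtype := by
    rw [Subgroup.map_iSup]
    congr 1
    funext i
    rw [Subgroup.subgroupOf_map_subtype, inf_eq_left.mpr (hM i)]
  refine (hfin.image (Subtype.val : N → G)).subset ?_
  rintro a ⟨h1, q, hq, h2⟩
  rw [hsup] at h1
  obtain ⟨b, hb, rfl⟩ := h1
  refine ⟨b, ⟨hb, q, hq, ?_⟩, rfl⟩
  apply Subtype.ext
  simpa using h2

end Pool.Agent.Helper75.PM
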