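import Pool.Agent.Helper75.PM.Defs
import Pool.Agent.Helper75.PM.P_socle
import Pool.Agent.Helper75.PM.P_socle_sup
import Pool.Agent.Helper75.PM.P_divisible_part
import Pool.Agent.Helper75.PM.P_finite_quot

set_option autoImplicit false

namespace Pool.Agent.Helper75.PM



def SS {G : Type} [Group G] (p : ℕ) (N : Subgroup G) : Set G :=
  {g | ∃ y : G, (∃ k : ℕ, y ^ (p ^ k) = 1) ∧ ∃ n ∈ N, g = n * y * n⁻¹ * y⁻¹}

theorem conj_p {G : Type} [Group G] (p : ℕ) (g y : G) (h : ∃ k : ℕ, y ^ (p ^ k) = 1) :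
    ∃ k : ℕ, (g * y * g⁻¹) ^ (p ^ k) = 1 := by
  obtain ⟨k, hk⟩ := h
  exact ⟨k, by rw [conj_pow, hk]; simp⟩

theorem SS_normal {G : Type} [Group G] (p : ℕ) (N : Subgroup G) [hN : N.Normal] :
    (Subgroup.closure (SS p N)).Normal := by
  constructor
  intro a ha g
  induction ha using Subgroup.closure_induction with
  | mem x hx =>
    obtain ⟨y, hy, n, hn, rfl⟩ := hx
    apply Subgroup.subset_closure
    refine ⟨g * y * g⁻¹, conj_p p g y hy, g * n * g⁻¹, hN.conj_mem n hn g, ?_⟩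
    group
  | one => simpa using Subgroup.one_mem _
  | mul x y _ _ hx hy =>
    have := Subgroup.mul_mem _ hx hy
    convert this using 1
    group
  | inv x _ hx =>
    have := Subgroup.inv_mem _ hx
    convert this using 1
    group

theorem SS_le_N {G : Type} [Group G] (p : ℕ) (N : Subgroup G) [hN : N.Normal] :
    Subgroup.closure (SS p N) ≤ N := by
  rw [Subgroup.closure_le]
  rintro g ⟨y, hy, n, hn, rfl⟩
  have h1 : y * n⁻¹ * y⁻¹ ∈ N := hN.conj_mem _ (N.inv_mem hn) y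
  have := N.mul_mem hn h1
  simpa [mul_assoc] using this

theorem SS_le_K {G : Type} [Group G] (p : ℕ) (N : Subgroup G) :
    Subgroup.closure (SS p N) ≤ Kp p G := by
  rw [Subgroup.closure_le]
  rintro g ⟨y, hy, n, hn, rfl⟩
  have h1 : n * y * n⁻¹ ∈ Kp p G := Subgroup.subset_closure (conj_p p n y hy)
  have h2 : y ∈ Kp p G := Subgroup.subset_closure hy
  exact (Kp p G).mul_mem h1 ((Kp p G).inv_mem h2)

theorem cm_le_main {G : Type} [Group G] (N : Subgroup G) [hN : N.Normal] (y : G) : cm N y ≤ N := by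
  unfold cm
  rw [Subgroup.closure_le]
  rintro g ⟨n, hn, rfl⟩
  have h1 : y * n⁻¹ * y⁻¹ ∈ N := hN.conj_mem _ (N.inv_mem hn) y
  have := N.mul_mem hn h1
  simpa [mul_assoc] using this

theorem SS_le_sup {G : Type} [Group G] (p : ℕ) (N : Subgroup G) [hN : N.Normal]
    (hab : ∀ a ∈ N, ∀ b ∈ N, a * b = b * a) (ι : Type) (xr : ι → G)
    (hcov : ∀ y : G, (∃ k : ℕ, y ^ (p ^ k) = 1) → ∃ i, (QuotientGroup.mk (xr i) : G ⧸ N) = QuotientGroup.mk y) :
    Subgroup.closure (SS p N) ≤ ⨆ i, cm N (xr i) := by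
  rw [Subgroup.closure_le]
  rintro g ⟨y, hy, n, hn, rfl⟩
  obtain ⟨i, hi⟩ := hcov y hy
  rw [QuotientGroup.eq] at hi
  have hmem : n * y * n⁻¹ * y⁻¹ ∈ cm N (xr i) := by
    apply Subgroup.subset_closure
    refine ⟨n, hn, ?_⟩
    set m := (xr i)⁻¹ * y with hm
    have hy' : y = xr i * m := by rw [hm]; group
    have hc := hab m hi n⁻¹ (N.inv_mem hn)
    rw [hy']
    have : n * (xr i * m) * n⁻¹ * (xr i * m)⁻¹ = n * xr i * (m * n⁻¹) * m⁻¹ * (xr i)⁻¹ := by group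
    rw [this, hc]
    group
  exact (le_iSup (fun i => cm N (xr i)) i) hmem

theorem tors {G : Type} [Group G] (hlf : LF G) (a : G) : IsOfFinOrder a := by
  have h := hlf {a} (Set.finite_singleton a)
  rw [← Subgroup.zpowers_eq_closure] at h
  exact finite_zpowers.mp h

theorem lift_p {G : Type} [Group G] (p : ℕ) (hp : p.Prime) (hlf : LF G) (A : Subgroup G)
    [A.Normal] (x : G ⧸ A) (hx : ∃ k : ℕ, x ^ (p ^ k) = 1) :
    ∃ y : G, (∃ k : ℕ, y ^ (p ^ k) = 1) ∧ (QuotientGroup.mk y : G ⧸ A) = x := by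
  obtain ⟨k, hk⟩ := hx
  obtain ⟨g, rfl⟩ := QuotientGroup.mk_surjective x
  have hg := (tors hlf g).orderOf_pos
  obtain ⟨a, m, hm, hgm⟩ := Nat.exists_eq_pow_mul_and_not_dvd hg.ne' p hp.ne_one
  have hcop : Nat.Coprime (p ^ k) m := Nat.Coprime.pow_left _ ((Nat.Prime.coprime_iff_not_dvd hp).mpr hm)
  obtain ⟨u, hu1, hu2⟩ := Nat.chineseRemainder hcop 1 0
  refine ⟨g ^ u, ⟨a, ?_⟩, ?_⟩
  · rw [← pow_mul, ← orderOf_dvd_iff_pow_eq_one, hgm]
    have : m ∣ u := (Nat.modEq_zero_iff_dvd).mp hu2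
    rw [mul_comm]
    exact Nat.mul_dvd_mul this dvd_rfl
  · rw [QuotientGroup.mk_pow]
    have h1 : orderOf (QuotientGroup.mk g : G ⧸ A) ∣ p ^ k := orderOf_dvd_of_pow_eq_one hk
    have h2 : u ≡ 1 [MOD orderOf (QuotientGroup.mk g : G ⧸ A)] := hu1.of_dvd h1
    have := (pow_eq_pow_iff_modEq (x := (QuotientGroup.mk g : G ⧸ A))).mpr h2
    rw [this, pow_one]

theorem cop_p {G : Type} [Group G] (p : ℕ) (hp : p.Prime) (a : G) (hf : IsOfFinOrder a)
    (hN : ∀ k j : ℕ, (a ^ j) ^ (p ^ k) = 1 → a ^ j = 1) : (orderOf a).Coprime p := by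
  rw [Nat.coprime_comm, Nat.Prime.coprime_iff_not_dvd hp]
  rintro ⟨m, hm⟩
  have hpos := hf.orderOf_pos
  have h1 : (a ^ m) ^ (p ^ 1) = 1 := by
    rw [pow_one, ← pow_mul, mul_comm, ← hm, pow_orderOf_eq_one]
  have h2 := hN 1 m h1
  have h3 := Nat.le_of_dvd (by
    rcases Nat.eq_zero_or_pos m with h | h
    · rw [h] at hm; omega
    · exact h) (orderOf_dvd_of_pow_eq_one h2)
  have := hp.two_le
  rcases Nat.eq_zero_or_pos m with h | h
  · rw [h] at hm; omega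
  · nlinarith

theorem relK {G : Type} [Group G] (p : ℕ) (hp : p.Prime) (hlf : LF G)
    (N : Subgroup G) [N.Normal] (hab : ∀ a ∈ N, ∀ b ∈ N, a * b = b * a)
    (hN : ∀ a ∈ N, ∀ k : ℕ, a ^ (p ^ k) = 1 → a = 1) (hi : N.index ≠ 0) (A : Subgroup G)
    [A.Normal] (hA : A = Subgroup.closure (SS p N)) : A.relIndex (Kp p G) ≠ 0 := by
  have hAN : A ≤ N := hA ▸ SS_le_N p N
  have hfin : Finite (Kp p (G ⧸ A)) := by
    haveI : (N.map (QuotientGroup.mk' A)).Normal :=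
      Subgroup.Normal.map inferInstance _ (QuotientGroup.mk'_surjective A)
    refine finite_quot p hp (N.map (QuotientGroup.mk' A)) ?_ ?_ ?_ ?_
    · rw [Subgroup.index_map_eq N (QuotientGroup.mk'_surjective A) (by rwa [QuotientGroup.ker_mk'])]
      exact hi
    · rintro _ ⟨a, ha, rfl⟩ _ ⟨b, hb, rfl⟩
      rw [← map_mul, ← map_mul, hab a ha b hb]
    · rintro _ ⟨a, ha, rfl⟩
      refine ⟨orderOf a, (tors hlf a).orderOf_pos, ?_, ?_⟩
      · exact cop_p p hp a (tors hlf a) (fun k j h => hN (a ^ j) (N.pow_mem ha j) k h)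
      · rw [← map_pow, pow_orderOf_eq_one, map_one]
    · rintro x hx _ ⟨n, hn, rfl⟩
      obtain ⟨y, hy, rfl⟩ := lift_p p hp hlf A x hx
      have h1 : n * y * n⁻¹ * y⁻¹ ∈ A := by
        rw [hA]
        exact Subgroup.subset_closure ⟨y, hy, n, hn, rfl⟩
      have h2 : (QuotientGroup.mk (n * y * n⁻¹ * y⁻¹) : G ⧸ A) = 1 :=
        (QuotientGroup.eq_one_iff _).mpr h1
      change (QuotientGroup.mk y : G ⧸ A) * QuotientGroup.mk n = QuotientGroup.mk n * QuotientGroup.mk y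
      simp only [QuotientGroup.mk_mul, QuotientGroup.mk_inv] at h2
      have h3 := mul_inv_eq_one.mp h2
      have h4 := mul_inv_eq_iff_eq_mul.mp h3
      exact h4.symm
  have hle : (Kp p G).map (QuotientGroup.mk' A) ≤ Kp p (G ⧸ A) := by
    unfold Kp
    rw [MonoidHom.map_closure, Subgroup.closure_le]
    rintro _ ⟨y, ⟨k, hk⟩, rfl⟩
    apply Subgroup.subset_closure
    exact ⟨k, by rw [← map_pow, hk, map_one]⟩
  have hfin2 : Finite ((Kp p G).map (QuotientGroup.mk' A)) :=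
    Finite.Set.subset (Kp p (G ⧸ A) : Set (G ⧸ A)) hle
  have h5 := Subgroup.relIndex_ker (Kp p G) (QuotientGroup.mk' A)
  rw [QuotientGroup.ker_mk'] at h5
  rw [h5]
  exact Nat.card_ne_zero.mpr ⟨inferInstance, hfin2⟩

theorem main (p : ℕ) (hp : p.Prime) (G : Type) [Group G] (hlf : LF G) (hm : PMin p G)
    (N : Subgroup G) [N.Normal] (hab : ∀ a ∈ N, ∀ b ∈ N, a * b = b * a)
    (hN : ∀ a ∈ N, ∀ k : ℕ, a ^ (p ^ k) = 1 → a = 1) (hi : N.index ≠ 0) :
    ∃ A : Subgroup G,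
      A ≤ Kp p G ∧ (A.subgroupOf (Kp p G)).Normal ∧ A.relIndex (Kp p G) ≠ 0 ∧
      (∀ a ∈ A, ∀ b ∈ A, a * b = b * a) ∧
      (∀ a ∈ A, ∀ m : ℕ, 0 < m → ∃ b ∈ A, b ^ m = a) ∧
      {a : G | a ∈ A ∧ ∃ q : ℕ, q.Prime ∧ a ^ q = 1}.Finite := by
  classical
  haveI : N.FiniteIndex := ⟨hi⟩
  haveI : Finite (G ⧸ N) := inferInstance
  let ι := {c : G ⧸ N // ∃ y : G, (∃ k : ℕ, y ^ (p ^ k) = 1) ∧ (QuotientGroup.mk y : G ⧸ N) = c}
  have hch : ∀ i : ι, ∃ y : G, (∃ k : ℕ, y ^ (p ^ k) = 1) ∧ (QuotientGroup.mk y : G ⧸ N) = i.1 :=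
    fun i => i.2
  choose xr hx1 hx2 using hch
  have hcov : ∀ y : G, (∃ k : ℕ, y ^ (p ^ k) = 1) →
      ∃ i, (QuotientGroup.mk (xr i) : G ⧸ N) = QuotientGroup.mk y := fun y hy =>
    ⟨⟨QuotientGroup.mk y, y, hy, rfl⟩, hx2 _⟩
  obtain ⟨A0, hA0⟩ : ∃ A0, A0 = Subgroup.closure (SS p N) := ⟨_, rfl⟩
  haveI hA0n : A0.Normal := hA0 ▸ SS_normal p N
  have hA0N : A0 ≤ N := hA0 ▸ SS_le_N p N
  have hA0K : A0 ≤ Kp p G := hA0 ▸ SS_le_K p N
  have hA0s : A0 ≤ ⨆ i, cm N (xr i) := hA0 ▸ SS_le_sup p N hab ι xr hcov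
  have hrel := relK p hp hlf N hab hN hi A0 hA0
  have hsoc0 := socle_sup N hab (fun a _ => tors hlf a) ι (fun i => cm N (xr i))
    (fun i => cm_le_main N (xr i)) (fun i => socle p hp hlf hm N hab hN (xr i) (hx1 i))
  have hsoc : {a : G | a ∈ A0 ∧ ∃ q : ℕ, q.Prime ∧ a ^ q = 1}.Finite :=
    hsoc0.subset (fun a ha => ⟨hA0s ha.1, ha.2⟩)
  letI : CommGroup A0 := { (inferInstance : Group A0) with
    mul_comm := fun a b => Subtype.ext (hab a (hA0N a.2) b (hA0N b.2)) }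
  obtain ⟨D, hD1, hD2, hD3⟩ := divisible_part (T := A0)
    (fun a => by
      have := tors hlf (a : G)
      exact (Submonoid.isOfFinOrder_coe (H := A0.toSubmonoid) (x := a)).mp this)
    (by
      apply Set.Finite.of_finite_image (f := (Subtype.val : A0 → G)) _ Subtype.val_injective.injOn
      apply hsoc.subset
      rintro _ ⟨a, ⟨q, hq, haq⟩, rfl⟩
      exact ⟨a.2, q, hq, by
        have := congrArg (Subtype.val : A0 → G) haq
        simpa using this⟩)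
  refine ⟨D.map A0.subtype, ?_, ?_, ?_, ?_, ?_, ?_⟩
  · exact (Subgroup.map_subtype_le D).trans hA0K
  · haveI : (D.map A0.subtype).Normal := ConjAct.normal_of_characteristic_of_normal
    infer_instance
  · refine Subgroup.relIndex_ne_zero_trans (K := A0) ?_ hrel
    have : (D.map A0.subtype).subgroupOf A0 = D :=
      Subgroup.comap_map_eq_self_of_injective (Subgroup.subtype_injective A0) D
    unfold Subgroup.relIndex
    rw [this]
    exact hD1
  · rintro _ ⟨a, ha, rfl⟩ _ ⟨b, hb, rfl⟩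
    exact hab _ (hA0N a.2) _ (hA0N b.2)
  · rintro _ ⟨a, ha, rfl⟩ m hm0
    obtain ⟨b, hb, hbm⟩ := hD2 a ha m hm0
    exact ⟨b, ⟨b, hb, rfl⟩, by
      have := congrArg (Subtype.val : A0 → G) hbm
      simpa using this⟩
  · apply hsoc.subset
    rintro _ ⟨⟨a, ha, rfl⟩, hq⟩
    exact ⟨a.2, hq⟩

end Pool.Agent.Helper75.PM
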