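import Pool.Agent.Helper75.PM.Defs

set_option autoImplicit false

namespace Pool.Agent.Helper75.PM



theorem opp_ord (p : ℕ) (hp : p.Prime) {G : Type} [Group G] (hlf : LF G) (B : Subgroup G)
    (hB : ∀ a ∈ B, ∀ k : ℕ, a ^ (p ^ k) = 1 → a = 1) (b : G) (hb : b ∈ B) :
    0 < orderOf b ∧ Nat.Coprime p (orderOf b) := by
  have hfin : IsOfFinOrder b := by
    rw [← finite_zpowers, Subgroup.zpowers_eq_closure]
    exact hlf {b} (Set.finite_singleton b)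
  have hpos : 0 < orderOf b := hfin.orderOf_pos
  refine ⟨hpos, (Nat.Prime.coprime_iff_not_dvd hp).2 ?_⟩
  rintro ⟨s, hs⟩
  have hs0 : 0 < s := by
    rcases Nat.eq_zero_or_pos s with h | h
    · rw [h, mul_zero] at hs; omega
    · exact h
  have h1 : (b ^ s) ^ (p ^ 1) = 1 := by
    rw [pow_one, ← pow_mul, mul_comm, ← hs, pow_orderOf_eq_one]
  have h2 := hB (b ^ s) (B.pow_mem hb s) 1 h1
  have h3 := Nat.le_of_dvd hs0 (orderOf_dvd_of_pow_eq_one h2)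
  have h4 := hp.two_le
  rw [hs] at h3
  nlinarith

theorem opp_sup (p : ℕ) (hp : p.Prime) {G : Type} [Group G] (hlf : LF G) (A B : Subgroup G)
    (hAn : A.Normal) (hA : ∀ a ∈ A, ∀ k : ℕ, a ^ (p ^ k) = 1 → a = 1)
    (hB : ∀ a ∈ B, ∀ k : ℕ, a ^ (p ^ k) = 1 → a = 1) :
    ∀ a ∈ A ⊔ B, ∀ k : ℕ, a ^ (p ^ k) = 1 → a = 1 := by
  intro x hx k hk
  rw [Subgroup.mem_sup_of_normal_left] at hx
  obtain ⟨a, ha, b, hb, rfl⟩ := hx
  obtain ⟨hpos, hcop⟩ := opp_ord p hp hlf B hB b hb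
  have h1 : (a * b) ^ (orderOf b) ∈ A := by
    rw [← QuotientGroup.eq_one_iff, QuotientGroup.mk_pow, QuotientGroup.mk_mul,
      (QuotientGroup.eq_one_iff a).2 ha, one_mul, ← QuotientGroup.mk_pow, pow_orderOf_eq_one]
    rfl
  have h2 : (a * b) ^ (orderOf b) = 1 := by
    refine hA _ h1 k ?_
    rw [← pow_mul, mul_comm, pow_mul, hk, one_pow]
  have h3 := Nat.dvd_gcd (orderOf_dvd_of_pow_eq_one hk) (orderOf_dvd_of_pow_eq_one h2)
  have h4 : Nat.gcd (p ^ k) (orderOf b) = 1 := Nat.Coprime.pow_left k hcop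
  rw [h4] at h3
  exact orderOf_eq_one_iff.mp (Nat.dvd_one.mp h3)

theorem opp (p : ℕ) (hp : p.Prime) {G : Type} [Group G] (hlf : LF G) (N : Subgroup G)
    (hn : N.Normal) (hi : N.index ≠ 0) (hN : ∀ a ∈ N, ∀ k : ℕ, a ^ (p ^ k) = 1 → a = 1) :
    ∃ N' : Subgroup G, N'.Characteristic ∧ N'.index ≠ 0 ∧
      ∀ a ∈ N', ∀ k : ℕ, a ^ (p ^ k) = 1 → a = 1 := by
  let S : Set (Subgroup G) := {A | A.Normal ∧ ∀ a ∈ A, ∀ k : ℕ, a ^ (p ^ k) = 1 → a = 1}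
  have hNS : N ∈ S := ⟨hn, hN⟩
  have hdir : DirectedOn (· ≤ ·) S := by
    intro A hA B hB
    refine ⟨A ⊔ B, ⟨?_, opp_sup p hp hlf A B hA.1 hA.2 hB.2⟩, le_sup_left, le_sup_right⟩
    have := hA.1
    have := hB.1
    exact Subgroup.sup_normal A B
  have hmem : ∀ x : G, x ∈ sSup S ↔ ∃ A ∈ S, x ∈ A := fun x =>
    Subgroup.mem_sSup_of_directedOn ⟨N, hNS⟩ hdir
  refine ⟨sSup S, ?_, ?_, ?_⟩
  · rw [Subgroup.characteristic_iff_map_le]
    intro ϕ y hy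
    rw [Subgroup.mem_map] at hy
    obtain ⟨x, hx, rfl⟩ := hy
    rw [hmem] at hx ⊢
    obtain ⟨A, hA, hxA⟩ := hx
    refine ⟨A.map ϕ.toMonoidHom, ⟨hA.1.map _ ϕ.surjective, ?_⟩, Subgroup.mem_map_of_mem _ hxA⟩
    intro y hy k hk
    rw [Subgroup.mem_map] at hy
    obtain ⟨a, ha, rfl⟩ := hy
    rw [← map_pow] at hk
    have h1 : a ^ (p ^ k) = 1 := ϕ.injective (by rw [map_one]; exact hk)
    rw [hA.2 a ha k h1, map_one]
  · have h1 : N ≤ sSup S := le_sSup hNS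
    intro h0
    exact hi (Nat.eq_zero_of_zero_dvd (h0 ▸ Subgroup.index_dvd_of_le h1))
  · intro a ha k hk
    rw [hmem] at ha
    obtain ⟨A, hA, haA⟩ := ha
    exact hA.2 a haA k hk

end Pool.Agent.Helper75.PM
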