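import Pool.Agent.Helper75.PM.Defs

set_option autoImplicit false

namespace Pool.Agent.Helper75.PM



set_option maxHeartbeats 4000000 in
theorem pstep (p : ℕ) (hp : p.Prime) {G : Type} [Group G] (hlf : LF G) (H R : Subgroup G)
    (hH : H.Normal) (hR : R.Normal) (hRH : R ≤ H) (hi : R.relIndex H ≠ 0)
    (hRp : ∀ a ∈ R, ∀ k : ℕ, a ^ (p ^ k) = 1 → a = 1)
    (hGH : ∀ x : G, ∀ k : ℕ, x ^ (p ^ k) ∈ H → x ∈ H) :
    ∃ N : Subgroup G, N.Normal ∧ N.index ≠ 0 ∧ ∀ a ∈ N, ∀ k : ℕ, a ^ (p ^ k) = 1 → a = 1 := by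
  classical
  haveI := hH
  haveI := hR
  haveI : Fact p.Prime := ⟨hp⟩
  let π : G →* G ⧸ R := QuotientGroup.mk' R
  have hπ : Function.Surjective π := QuotientGroup.mk'_surjective R
  have hπ1 : ∀ a : G, π a = 1 ↔ a ∈ R := fun a => QuotientGroup.eq_one_iff a
  let Hb : Subgroup (G ⧸ R) := H.map π
  haveI hHbN : Hb.Normal := Subgroup.Normal.map hH π hπ
  haveI hfin : Finite Hb := by
    have h1 : π.ker.relIndex H = Nat.card Hb := Subgroup.relIndex_ker H π
    rw [QuotientGroup.ker_mk'] at h1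
    exact Nat.finite_of_card_ne_zero (h1 ▸ hi)
  haveI : Finite (MulAut Hb) :=
    Finite.of_injective (fun e : MulAut Hb => (e : Hb → Hb)) DFunLike.coe_injective
  let Φ : G →* MulAut Hb := (MulAut.conjNormal (H := Hb)).comp π
  let C : Subgroup G := Φ.ker
  have hCi : C.index ≠ 0 := by
    haveI : Φ.ker.FiniteIndex := inferInstance
    exact Subgroup.FiniteIndex.index_ne_zero
  have hCN : C.Normal := inferInstance
  have hCmem : ∀ g ∈ C, ∀ z ∈ H, π g * π z = π z * π g := by
    intro g hg z hz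
    have h1 : Φ g = 1 := hg
    have h2 := congrArg Subtype.val (DFunLike.congr_fun h1 ⟨π z, ⟨z, hz, rfl⟩⟩)
    have h3 : π g * π z * (π g)⁻¹ = π z := h2
    exact mul_inv_eq_iff_eq_mul.1 h3
  have hback : ∀ c : G, π c ∈ Hb → c ∈ H := by
    rintro c ⟨z, hz, hzc⟩
    have h1 : π (z⁻¹ * c) = 1 := by rw [map_mul, map_inv, hzc, inv_mul_cancel]
    have h2 := hRH ((hπ1 _).1 h1)
    have h3 := H.mul_mem hz h2
    rwa [mul_inv_cancel_left] at h3
  have hmul : ∀ g ∈ C, ∀ h ∈ C, ∀ a b : ℕ, a.Coprime p → b.Coprime p → g ^ a ∈ R → h ^ b ∈ R →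
      ∃ n : ℕ, n.Coprime p ∧ (g * h) ^ n ∈ R := by
    intro g hg h hh a b ha hb hga hhb
    let F : Subgroup (G ⧸ R) := (Subgroup.closure {g, h}).map π
    have hcl : Subgroup.closure {g, h} ≤ C := by
      rw [Subgroup.closure_le]
      rintro y (rfl | rfl)
      · exact hg
      · exact hh
    haveI : Finite F := by
      have h1 : (Subgroup.closure ({g, h} : Set G) : Set G).Finite := hlf _ (Set.toFinite _)
      have h2 : (F : Set (G ⧸ R)).Finite := by
        have : (F : Set (G ⧸ R)) = π '' (Subgroup.closure ({g, h} : Set G) : Set G) := rfl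
        rw [this]
        exact h1.image _
      exact h2.to_subtype
    let K : Subgroup F := Hb.subgroupOf F
    have hKc : K ≤ Subgroup.center F := by
      rintro ⟨x, hxF⟩ hx
      rw [Subgroup.mem_center_iff]
      rintro ⟨y, c, hc, rfl⟩
      obtain ⟨z, hz, hzx⟩ := (Subgroup.mem_subgroupOf.1 hx : x ∈ Hb)
      apply Subtype.ext
      show π c * x = x * π c
      have hzx' : π z = x := hzx
      rw [← hzx']
      exact hCmem c (hcl hc) z hz
    have hKp : ¬ p ∣ K.index := by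
      intro hdvd
      haveI : K.Normal := Subgroup.normal_subgroupOf
      have hdvd' : p ∣ Nat.card (F ⧸ K) := hdvd
      obtain ⟨x, hx⟩ := exists_prime_orderOf_dvd_card' p hdvd'
      obtain ⟨f, rfl⟩ := QuotientGroup.mk'_surjective K x
      have h1 : f ^ p ∈ K := by
        have h2 := pow_orderOf_eq_one (QuotientGroup.mk' K f)
        rw [hx, ← map_pow] at h2
        exact (QuotientGroup.eq_one_iff (f ^ p)).1 h2
      have h3 : f ∉ K := by
        intro h4
        have h5 : QuotientGroup.mk' K f = 1 := (QuotientGroup.eq_one_iff f).2 h4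
        rw [h5, orderOf_one] at hx
        exact hp.one_lt.ne hx
      apply h3
      obtain ⟨x, c, hc, rfl⟩ := f
      have h6 : π c ^ p ∈ Hb := Subgroup.mem_subgroupOf.1 h1
      rw [← map_pow] at h6
      have h7 := hGH c 1 (by rw [pow_one]; exact hback _ h6)
      exact Subgroup.mem_subgroupOf.2 ⟨c, h7, rfl⟩
    have hm : (Subgroup.center F).index.Coprime p := by
      refine (Nat.Coprime.symm ((Nat.Prime.coprime_iff_not_dvd hp).2 fun h1 => ?_))
      exact hKp (h1.trans (Subgroup.index_dvd_of_le hKc))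
    let x : F := ⟨π g, g, Subgroup.subset_closure (by simp), rfl⟩
    let y : F := ⟨π h, h, Subgroup.subset_closure (by simp), rfl⟩
    have hx : x ^ a = 1 := by
      apply Subtype.ext
      show π g ^ a = 1
      rw [← map_pow]
      exact (hπ1 _).2 hga
    have hy : y ^ b = 1 := by
      apply Subtype.ext
      show π h ^ b = 1
      rw [← map_pow]
      exact (hπ1 _).2 hhb
    have hT : (MonoidHom.transferCenterPow F (x * y)) ^ (a * b) = 1 := by
      have hcomm : Commute (MonoidHom.transferCenterPow F x) (MonoidHom.transferCenterPow F y) :=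
        Subtype.ext (Subgroup.mem_center_iff.1 (MonoidHom.transferCenterPow F y).2
          (MonoidHom.transferCenterPow F x).1)
      have e1 : (MonoidHom.transferCenterPow F x) ^ (a * b) = 1 := by
        rw [← map_pow, pow_mul, hx, one_pow, map_one]
      have e2 : (MonoidHom.transferCenterPow F y) ^ (a * b) = 1 := by
        rw [← map_pow, mul_comm a b, pow_mul, hy, one_pow, map_one]
      rw [map_mul, hcomm.mul_pow, e1, e2, mul_one]
    have hT2 : ((x * y) ^ (Subgroup.center F).index) ^ (a * b) = 1 := by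
      have h1 := congrArg Subtype.val hT
      rw [Subgroup.coe_pow, MonoidHom.transferCenterPow_apply] at h1
      exact h1
    have hT3 := congrArg Subtype.val hT2
    refine ⟨(Subgroup.center F).index * (a * b), Nat.Coprime.mul_left hm (Nat.Coprime.mul_left ha hb), ?_⟩
    rw [← hπ1, map_pow, map_mul, pow_mul]
    exact hT3
  let N : Subgroup G :=
    { carrier := {g | g ∈ C ∧ ∃ n : ℕ, n.Coprime p ∧ g ^ n ∈ R}
      mul_mem' := by
        rintro g h ⟨hg, a, ha, hga⟩ ⟨hh, b, hb, hhb⟩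
        exact ⟨C.mul_mem hg hh, hmul g hg h hh a b ha hb hga hhb⟩
      one_mem' := ⟨C.one_mem, 1, Nat.coprime_one_left p, by simp [R.one_mem]⟩
      inv_mem' := by
        rintro g ⟨hg, a, ha, hga⟩
        exact ⟨C.inv_mem hg, a, ha, by rw [inv_pow]; exact R.inv_mem hga⟩ }
  have hNmem : ∀ g, g ∈ N ↔ g ∈ C ∧ ∃ n : ℕ, n.Coprime p ∧ g ^ n ∈ R := fun g => Iff.rfl
  have hNN : N.Normal := by
    refine ⟨fun g hg n => ?_⟩
    rw [hNmem] at hg ⊢
    obtain ⟨hgC, a, ha, hga⟩ := hg
    refine ⟨hCN.conj_mem g hgC n, a, ha, ?_⟩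
    rw [conj_pow]
    exact hR.conj_mem _ hga n
  haveI := hNN
  have hNC : N ≤ C := fun g hg => hg.1
  have hRC : R ≤ C := by
    intro r hr
    show Φ r = 1
    show MulAut.conjNormal (π r) = 1
    rw [(hπ1 r).2 hr, map_one]
  have hRN : R ≤ N := fun r hr => ⟨hRC hr, 1, Nat.coprime_one_left p, by simpa using hr⟩
  have hCle : C ≤ H ⊔ N := by
    intro g hg
    have h1 : (Subgroup.closure ({g} : Set G) : Set G).Finite := hlf _ (Set.toFinite _)
    have h2 : IsOfFinOrder g := by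
      haveI : Finite (Subgroup.closure ({g} : Set G)) := h1.to_subtype
      have h3 : IsOfFinOrder (⟨g, Subgroup.subset_closure rfl⟩ : Subgroup.closure ({g} : Set G)) :=
        isOfFinOrder_of_finite _
      exact Submonoid.isOfFinOrder_coe.2 h3
    obtain ⟨k, n, hn, hd⟩ := Nat.exists_eq_pow_mul_and_not_dvd (n := orderOf g)
      h2.orderOf_pos.ne' p hp.ne_one
    have hcop : Nat.Coprime (p ^ k) n :=
      Nat.Coprime.pow_left k ((Nat.Prime.coprime_iff_not_dvd hp).2 hn)
    have hbez : ((p ^ k : ℕ) : ℤ) * (Nat.gcdA (p ^ k) n) + (n : ℤ) * (Nat.gcdB (p ^ k) n) = 1 := by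
      have := Nat.gcd_eq_gcd_ab (p ^ k) n
      rw [hcop.gcd_eq_one] at this
      exact this.symm
    have hg1 : g ^ (p ^ k * n) = 1 := by rw [← hd]; exact pow_orderOf_eq_one g
    have hgd : g = g ^ ((n : ℤ) * (Nat.gcdB (p ^ k) n)) * g ^ (((p ^ k : ℕ) : ℤ) * (Nat.gcdA (p ^ k) n)) := by
      rw [← zpow_add, add_comm, hbez, zpow_one]
    rw [hgd]
    refine Subgroup.mul_mem_sup ?_ ?_
    · apply hGH _ k
      have h4 : (g ^ ((n : ℤ) * (Nat.gcdB (p ^ k) n))) ^ (p ^ k) = 1 := by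
        rw [← zpow_natCast, ← zpow_mul]
        have h5 : (n : ℤ) * (Nat.gcdB (p ^ k) n) * ((p ^ k : ℕ) : ℤ) =
            ((p ^ k * n : ℕ) : ℤ) * (Nat.gcdB (p ^ k) n) := by push_cast; ring
        rw [h5, zpow_mul, zpow_natCast, hg1, one_zpow]
      rw [h4]
      exact H.one_mem
    · refine ⟨C.zpow_mem hg _, n, (Nat.Coprime.symm ((Nat.Prime.coprime_iff_not_dvd hp).2 hn)), ?_⟩
      have h4 : (g ^ (((p ^ k : ℕ) : ℤ) * (Nat.gcdA (p ^ k) n))) ^ n = 1 := by
        rw [← zpow_natCast, ← zpow_mul]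
        have h5 : ((p ^ k : ℕ) : ℤ) * (Nat.gcdA (p ^ k) n) * (n : ℤ) =
            ((p ^ k * n : ℕ) : ℤ) * (Nat.gcdA (p ^ k) n) := by push_cast; ring
        rw [h5, zpow_mul, zpow_natCast, hg1, one_zpow]
      rw [h4]
      exact R.one_mem
  refine ⟨N, hNN, ?_, ?_⟩
  · have h1 : N.relIndex H ≠ 0 := fun h0 =>
      hi (Nat.eq_zero_of_zero_dvd (h0 ▸ Subgroup.relIndex_dvd_of_le_left H hRN))
    have h2 : N.relIndex (H ⊔ N) ≠ 0 := by
      rw [Subgroup.relIndex_sup_right]
      exact h1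
    have h3 := Subgroup.relIndex_mul_relIndex N C (H ⊔ N) hNC hCle
    have h4 : N.relIndex C ≠ 0 := by
      intro h0
      rw [h0, zero_mul] at h3
      exact h2 h3.symm
    rw [← Subgroup.relIndex_mul_index hNC]
    exact mul_ne_zero h4 hCi
  · rintro g ⟨hgC, n, hn, hgn⟩ k hk
    have h1 : g ^ n = 1 := hRp _ hgn k (by rw [← pow_mul, mul_comm, pow_mul, hk, one_pow])
    have h2 : orderOf g ∣ n := orderOf_dvd_of_pow_eq_one h1
    have h3 : orderOf g ∣ p ^ k := orderOf_dvd_of_pow_eq_one hk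
    have h4 : orderOf g ∣ 1 := by
      have h5 := Nat.dvd_gcd h2 h3
      rwa [Nat.Coprime.gcd_eq_one (Nat.Coprime.pow_right k hn)] at h5
    exact orderOf_eq_one_iff.1 (Nat.dvd_one.1 h4)

end Pool.Agent.Helper75.PM
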