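import Pool.Agent.Helper75.PM.Defs
import Pool.Agent.Helper75.PM.P_opp
import Pool.Agent.Helper75.PM.P_pstep

set_option autoImplicit false

namespace Pool.Agent.Helper75.PM



theorem series (p : ℕ) (hp : p.Prime) (n : ℕ) : ∀ (G : Type) [Group G], LF G →
    (∃ H : ℕ → Subgroup G, H 0 = ⊥ ∧ H n = ⊤ ∧
        ∀ i < n, H i ≤ H (i + 1) ∧ ((H i).subgroupOf (H (i + 1))).Normal ∧
          ((H i).relIndex (H (i + 1)) ≠ 0 ∨
            ∀ x ∈ H (i + 1), ∀ k : ℕ, x ^ (p ^ k) ∈ H i → x ∈ H i)) →
    ∃ N : Subgroup G, N.Characteristic ∧ N.index ≠ 0 ∧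
      ∀ a ∈ N, ∀ k : ℕ, a ^ (p ^ k) = 1 → a = 1 := by
  induction n with
  | zero =>
    intro G _ hlf ⟨H, h0, hn, _⟩
    have hbt : (⊥ : Subgroup G) = ⊤ := h0.symm.trans hn
    refine ⟨⊤, inferInstance, ?_, ?_⟩
    · rw [Subgroup.index_top]
      exact one_ne_zero
    · intro a ha k _
      rw [← hbt] at ha
      exact Subgroup.mem_bot.mp ha
  | succ n ih =>
    intro G _ hlf ⟨H, h0, hn, hs⟩
    have hmono : ∀ i, i ≤ n → ∀ j, j ≤ i → H j ≤ H i := by
      intro i
      induction i with
      | zero =>
        intro _ j hj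
        have : j = 0 := by omega
        rw [this]
      | succ i ihi =>
        intro hi j hj
        rcases Nat.lt_or_ge i j with h | h
        · have : j = i + 1 := by omega
          rw [this]
        · exact (ihi (by omega) j h).trans (hs i (by omega)).1
    have hnorm : (H n).Normal := by
      have h1 := (hs n (by omega)).2.1
      rw [Subgroup.normal_subgroupOf_iff (hs n (by omega)).1] at h1
      refine ⟨fun a ha g => h1 a g ha ?_⟩
      rw [hn]
      trivial
    have hlf' : LF ↥(H n) := by
      intro s hsf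
      have h1 := hlf ((H n).subtype '' s) (hsf.image _)
      rw [← MonoidHom.map_closure] at h1
      have h2 : ((H n).subtype '' ((Subgroup.closure s : Subgroup ↥(H n)) : Set ↥(H n))).Finite := h1
      exact h2.of_finite_image (Subtype.val_injective.injOn)
    obtain ⟨N1, hc, hi1, hp1⟩ := ih ↥(H n) hlf' ⟨fun i => (H i).subgroupOf (H n), by
      show (H 0).subgroupOf (H n) = ⊥
      rw [h0, Subgroup.bot_subgroupOf], Subgroup.subgroupOf_self _, by
      intro i hi
      obtain ⟨a1, a2, a3⟩ := hs i (by omega)
      have hle : (H i).subgroupOf (H n) ≤ (H (i + 1)).subgroupOf (H n) := Subgroup.comap_mono a1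
      refine ⟨hle, ?_, ?_⟩
      · rw [Subgroup.normal_subgroupOf_iff a1] at a2
        rw [Subgroup.normal_subgroupOf_iff hle]
        intro h k hh hk
        rw [Subgroup.mem_subgroupOf] at hh hk ⊢
        exact a2 _ _ hh hk
      · rcases a3 with a3 | a3
        · left
          have h1 : ((H i).subgroupOf (H n)).relIndex ((H (i + 1)).subgroupOf (H n)) =
              (H i).relIndex (((H (i + 1)).subgroupOf (H n)).map (H n).subtype) :=
            Subgroup.relIndex_comap (H i) (H n).subtype _
          rw [h1, Subgroup.subgroupOf_map_subtype, inf_eq_left.mpr (hmono n le_rfl (i + 1) (by omega))]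
          exact a3
        · right
          intro x hx k hk
          rw [Subgroup.mem_subgroupOf] at hx hk ⊢
          exact a3 _ hx k hk⟩
    obtain ⟨R, hR⟩ : ∃ R : Subgroup G, R = N1.map (H n).subtype := ⟨_, rfl⟩
    have hRn : R.Normal := by
      rw [hR]
      haveI := hnorm
      haveI := hc
      infer_instance
    have hRH : R ≤ H n := by
      rw [hR]
      exact Subgroup.map_subtype_le _
    have hRi : R.relIndex (H n) ≠ 0 := by
      have h1 : R.subgroupOf (H n) = N1 := by
        rw [hR]
        exact Subgroup.comap_map_eq_self_of_injective (Subgroup.subtype_injective _) _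
      show (R.subgroupOf (H n)).index ≠ 0
      rw [h1]
      exact hi1
    have hRp : ∀ a ∈ R, ∀ k : ℕ, a ^ (p ^ k) = 1 → a = 1 := by
      intro a ha k hk
      rw [hR] at ha
      obtain ⟨b, hb, rfl⟩ := Subgroup.mem_map.mp ha
      have h1 : b ^ (p ^ k) = 1 := by
        apply Subtype.ext
        simpa using hk
      rw [hp1 b hb k h1, map_one]
    rcases (hs n (by omega)).2.2 with h | h
    · refine opp p hp hlf R hRn ?_ hRp
      rw [hn, Subgroup.relIndex_top_right] at h
      rw [← Subgroup.relIndex_mul_index hRH]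
      exact mul_ne_zero hRi h
    · obtain ⟨N, a1, a2, a3⟩ := pstep p hp hlf (H n) R hnorm hRn hRH hRi hRp
        (fun x k hx => h x (by rw [hn]; trivial) k hx)
      exact opp p hp hlf N a1 a2 a3

end Pool.Agent.Helper75.PM
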